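import Mathlib

/-!
# Uniform spanning trees of finite edge sets with identified vertices

Definitions used for `MP_688e31_pr`.
-/

namespace Pool.Agent.TH968.UST

open Finset
open scoped ENNReal

/-- `Conn r T a b`: `a` and `b` are connected by edges of `T` once `r`-equivalent vertices are
identified. -/
def Conn {V : Type*} (r : Setoid V) (T : Set (Sym2 V)) (a b : V) : Prop :=
  Relation.EqvGen (fun a b => r a b ∨ s(a, b) ∈ T) a b

/-- `T` is a spanning tree (a maximal spanning forest when `E` is not connected) of the multigraph
with edge set `E` in which `r`-equivalent vertices are identified: `T ⊆ E`, `T` connects the two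
endpoints of each edge of `E`, and no edge of `T` can be removed without disconnecting its
endpoints. -/
def IsSpan {V : Type*} (r : Setoid V) (E T : Set (Sym2 V)) : Prop :=
  T ⊆ E ∧ (∀ a b, s(a, b) ∈ E → Conn r T a b) ∧
    ∀ a b, s(a, b) ∈ T → ¬ Conn r (T \ {s(a, b)}) a b

open Classical in
/-- The finite set of all spanning trees of a finite edge set. -/
noncomputable def trees {V : Type*} (r : Setoid V) (E : Finset (Sym2 V)) :
    Finset (Finset (Sym2 V)) :=
  E.powerset.filter (fun T => IsSpan r (E : Set (Sym2 V)) (T : Set (Sym2 V)))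

/-- `(φ a - φ b)^2` for the edge `s(a,b)`. -/
def dsq {V : Type*} (φ : V → ℝ) : Sym2 V → ℝ :=
  Sym2.lift ⟨fun a b => (φ a - φ b) ^ 2, fun a b => by ring⟩

/-- Dirichlet energy of `φ` on the edge set `E`. -/
noncomputable def energy {V : Type*} (E : Finset (Sym2 V)) (φ : V → ℝ) : ℝ := ∑ e ∈ E, dsq φ e

open Classical in
/-- Average of `f` over the neighbours of `v` in `G` (one step of simple random walk);
`0` at an isolated vertex. -/
noncomputable def avg {V : Type*} (G : SimpleGraph V) (f : V → ℝ≥0∞) (v : V) : ℝ≥0∞ :=
  (∑' w, if G.Adj v w then f w else 0) / (∑' w, if G.Adj v w then 1 else 0)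

open Classical in
/-- `hit G o n v`: probability that simple random walk on `G` started at `v` visits `o` within
its first `n` steps (time `0` counts). -/
noncomputable def hit {V : Type*} (G : SimpleGraph V) (o : V) : ℕ → V → ℝ≥0∞
  | 0, v => if v = o then 1 else 0
  | n + 1, v => if v = o then 1 else avg G (hit G o n) v

/-- `G` is recurrent: simple random walk started at any non-isolated vertex `o` returns to `o`
almost surely (`avg G (hit G o n) o` is the probability that it returns within `n + 1` steps). -/
def Recurrent {V : Type*} (G : SimpleGraph V) : Prop :=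
  ∀ o : V, (∃ w, G.Adj o w) → ⨆ n, avg G (hit G o n) o = 1

/-- All vertices outside `B` are identified into one vertex. -/
def wired {V : Type*} (B : Finset V) : Setoid V where
  r a b := a = b ∨ (a ∉ B ∧ b ∉ B)
  iseqv := ⟨fun _ => Or.inl rfl, fun h => h.elim (fun h => Or.inl h.symm) fun h => Or.inr ⟨h.2, h.1⟩,
    fun {a b c} h1 h2 => by
      rcases h1 with rfl | h1
      · exact h2
      · rcases h2 with rfl | h2
        · exact Or.inr h1
        · exact Or.inr ⟨h1.1, h2.2⟩⟩

/-- The edges of `G` with at least one endpoint in `B`. -/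
def touch {V : Type*} (G : SimpleGraph V) (B : Finset V) : Set (Sym2 V) :=
  {e | e ∈ G.edgeSet ∧ ∃ v ∈ B, v ∈ e}

/-- For the uniform spanning tree `T` of the (finite) edge set `E` with `r`-equivalent vertices
identified, the probability that `T ∩ F = A`. -/
noncomputable def ustProb {V : Type*} (r : Setoid V) (E F A : Set (Sym2 V)) : ℝ :=
  ({T : Set (Sym2 V) | IsSpan r E T ∧ T ∩ F = A}.ncard : ℝ) /
    ({T : Set (Sym2 V) | IsSpan r E T}.ncard : ℝ)

end Pool.Agent.TH968.UST
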