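import Pool.Agent.TH968.UST.Defs

/-!
# The factor-of-iid construction (definitions)
-/

namespace Pool.Agent.TH968.UST

open Finset MeasureTheory
open scoped ENNReal unitInterval

/-- The edges with all endpoints in `S`. -/
def within {V : Type*} (S : Set V) : Set (Sym2 V) := {e | ∀ v ∈ e, v ∈ S}

/-- The connected component of `a` in the edge set `A`. -/
def comp {V : Type*} (A : Set (Sym2 V)) (a : V) : Set V := {x | Conn ⊥ A a x}

open Classical in
/-- A finite set as a finset; `∅` if the set is infinite. -/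
noncomputable def toFin {α : Type*} (S : Set α) : Finset α := if h : S.Finite then h.toFinset else ∅

/-- Rank of `x` in `C` with respect to the order labels `s`. -/
noncomputable def rk {V : Type*} (s : V → I) (C : Set V) (x : V) : ℕ :=
  {y | y ∈ C ∧ s y < s x}.ncard

/-- The edges of `X` inside `C`, with the vertices of `C` replaced by their ranks. -/
noncomputable def img {V : Type*} (s : V → I) (C : Set V) (X : Set (Sym2 V)) :
    Finset (Sym2 ℕ) :=
  toFin {e | ∃ x y, x ∈ C ∧ y ∈ C ∧ s(x, y) ∈ X ∧ e = s(rk s C x, rk s C y)}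

/-- One resampling step: on each component `C` of `A'` the new tree is read off from the
canonical coupling `Kc` applied to the rank-images of `A`, `A'`, `T` in `C` and the label `w x` of
the lowest-ranked vertex `x` of `C`. -/
def step {V : Type*} (Kc : Finset (Sym2 ℕ) → Finset (Sym2 ℕ) → Finset (Sym2 ℕ) → I → Finset (Sym2 ℕ))
    (s : V → I) (A A' T : Set (Sym2 V)) (w : V → I) : Set (Sym2 V) :=
  {e | ∃ a b, e = s(a, b) ∧ s(a, b) ∈ A' ∧ ∃ x ∈ comp A' a, rk s (comp A' a) x = 0 ∧
    s(rk s (comp A' a) a, rk s (comp A' a) b) ∈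
      Kc (img s (comp A' a) A) (img s (comp A' a) A') (img s (comp A' a) T) (w x)}

/-- The sequence of spanning forests of the increasing edge sets `A n`. -/
def Tseq {V : Type*}
    (Kc : Finset (Sym2 ℕ) → Finset (Sym2 ℕ) → Finset (Sym2 ℕ) → I → Finset (Sym2 ℕ))
    (s : V → I) (A : ℕ → Set (Sym2 V)) (W : ℕ → V → I) : ℕ → Set (Sym2 V)
  | 0 => ∅
  | n + 1 => step Kc s (A n) (A (n + 1)) (Tseq Kc s A W n) (W n)

/-- Balls in `G` (recursively from the centre). -/
def gball {V : Type*} (G : SimpleGraph V) : ℕ → V → Set V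
  | 0, v => {v}
  | n + 1, v => {v} ∪ {x | ∃ w, G.Adj v w ∧ x ∈ gball G n w}

open Classical in
/-- `nu G R n v r`: probability that simple random walk from `v` hits `R` within `n` steps and
does so for the first time at `r`. -/
noncomputable def nu {V : Type*} (G : SimpleGraph V) (R : Set V) : ℕ → V → V → ℝ≥0∞
  | 0, v, r => if v ∈ R ∧ v = r then 1 else 0
  | n + 1, v, r => if v ∈ R then (if v = r then 1 else 0) else avg G (fun w => nu G R n w r) v

open Classical in
/-- `mass G R n v`: probability that simple random walk from `v` hits `R` within `n` steps. -/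
noncomputable def mass {V : Type*} (G : SimpleGraph V) (R : Set V) : ℕ → V → ℝ≥0∞
  | 0, v => if v ∈ R then 1 else 0
  | n + 1, v => if v ∈ R then 1 else avg G (mass G R n) v

/-- The edge `s(a,b)` is kept for root set `R`, horizon `N`, `K` rounds of thresholds `θ`. -/
def Kept {V : Type*} (G : SimpleGraph V) (R : Set V) (N K : ℕ) (θ : ℕ → V → I) (a b : V) : Prop :=
  (∃ k < K, ∃ r, ENNReal.ofReal (θ k r) < nu G R N a r) ∧
    ∀ k < K, ∀ r, (ENNReal.ofReal (θ k r) < nu G R N a r ↔ ENNReal.ofReal (θ k r) < nu G R N b r)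

/-- The increasing sequence of edge sets with finite components. -/
def Aseq {V : Type*} (G : SimpleGraph V) (ε : ℕ → ℝ) (N K : ℕ → ℕ) (α : ℕ → V → I)
    (θ : ℕ → ℕ → V → I) : ℕ → Set (Sym2 V)
  | 0 => ∅
  | n + 1 => {e | ∃ a b, e = s(a, b) ∧ G.Adj a b ∧
      (Finite V ∨ ∀ m ≥ n, Kept G {v | (α m v : ℝ) < ε m} (N m) (K m) (θ m) a b)}

end Pool.Agent.TH968.UST
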