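import Mathlib

/-!
# Product measures: mixing two configurations, label splitting
-/

namespace Pool.Agent.TH968.UST

open MeasureTheory Set
open scoped ENNReal unitInterval

section mix

variable {ι : Type*}

/-- The iid uniform field. -/
noncomputable abbrev U (ι : Type*) : Measure (ι → I) :=
  Measure.infinitePi (fun _ : ι => (volume : Measure I))

open Classical in
/-- Use the first configuration on `J` and the second one off `J`. -/
noncomputable def mix (J : Set ι) (x y : ι → I) : ι → I := fun i => if i ∈ J then x i else y i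

theorem mix_apply_mem {J : Set ι} (x y : ι → I) {i : ι} (hi : i ∈ J) : mix J x y i = x i := by
  simp [mix, hi]

theorem mix_apply_not_mem {J : Set ι} (x y : ι → I) {i : ι} (hi : i ∉ J) :
    mix J x y i = y i := by
  simp [mix, hi]

theorem measurable_mix (J : Set ι) :
    Measurable (fun p : (ι → I) × (ι → I) => mix J p.1 p.2) := by
  refine measurable_pi_lambda _ fun i => ?_
  by_cases hi : i ∈ J
  · simp only [mix, hi, if_true]; fun_prop
  · simp only [mix, hi, if_false]; fun_prop

theorem mix_map (J : Set ι) :
    Measure.map (fun p : (ι → I) × (ι → I) => mix J p.1 p.2) ((U ι).prod (U ι)) = U ι := by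
  classical
  refine Measure.eq_infinitePi _ fun s t ht => ?_
  have hms : MeasurableSet ((s : Set ι).pi t) := .pi s.countable_toSet fun i _ => ht i
  rw [Measure.map_apply (measurable_mix J) hms]
  have : (fun p : (ι → I) × (ι → I) => mix J p.1 p.2) ⁻¹' ((s : Set ι).pi t) =
      (((s.filter (· ∈ J) : Finset ι) : Set ι).pi t) ×ˢ
        (((s.filter (¬ · ∈ J) : Finset ι) : Set ι).pi t) := by
    ext ⟨x, y⟩
    simp only [mem_preimage, Set.mem_pi, Finset.mem_coe, mem_prod, Finset.mem_filter]
    constructor
    · intro h
      refine ⟨fun i hi => ?_, fun i hi => ?_⟩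
      · have := h i hi.1; rwa [mix_apply_mem _ _ hi.2] at this
      · have := h i hi.1; rwa [mix_apply_not_mem _ _ hi.2] at this
    · rintro ⟨h1, h2⟩ i hi
      by_cases hJ : i ∈ J
      · rw [mix_apply_mem _ _ hJ]; exact h1 i ⟨hi, hJ⟩
      · rw [mix_apply_not_mem _ _ hJ]; exact h2 i ⟨hi, hJ⟩
  rw [this, Measure.prod_prod, Measure.infinitePi_pi _ (fun i _ => ht i),
    Measure.infinitePi_pi _ (fun i _ => ht i), Finset.prod_filter_mul_prod_filter_not]

/-- Fubini for a splitting of the coordinates. -/
theorem lintegral_mix (J : Set ι) (f : (ι → I) → ℝ≥0∞) (hf : Measurable f) :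
    ∫⁻ x, f x ∂(U ι) = ∫⁻ x, ∫⁻ y, f (mix J x y) ∂(U ι) ∂(U ι) := by
  conv_lhs => rw [← mix_map J]
  rw [lintegral_map hf (measurable_mix J), lintegral_prod]
  exact (hf.comp (measurable_mix J)).aemeasurable

theorem measure_mix (J : Set ι) (S : Set (ι → I)) (hS : MeasurableSet S) :
    U ι S = ∫⁻ x, U ι {y | mix J x y ∈ S} ∂(U ι) := by
  have := lintegral_mix J (S.indicator 1) (measurable_one.indicator hS)
  rw [lintegral_indicator_one hS] at this
  rw [this]
  refine lintegral_congr fun x => ?_
  have h2 : MeasurableSet {y | mix J x y ∈ S} :=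
    ((measurable_mix J).comp (measurable_const.prodMk measurable_id)) hS
  rw [← lintegral_indicator_one h2]
  rfl

/-- Events depending on disjoint sets of coordinates are independent. -/
theorem indep_of_dep (J : Set ι) (S T : Set (ι → I)) (hS : MeasurableSet S) (hT : MeasurableSet T)
    (hSJ : ∀ x y, (∀ i ∈ J, x i = y i) → (x ∈ S ↔ y ∈ S))
    (hTJ : ∀ x y, (∀ i ∉ J, x i = y i) → (x ∈ T ↔ y ∈ T)) :
    U ι (S ∩ T) = U ι S * U ι T := by
  have h1 : U ι (S ∩ T) = (U ι).prod (U ι) (S ×ˢ T) := by
    conv_lhs => rw [← mix_map J]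
    rw [Measure.map_apply (measurable_mix J) (hS.inter hT)]
    congr 1
    ext ⟨x, y⟩
    simp only [mem_preimage, mem_inter_iff, mem_prod]
    rw [hSJ (mix J x y) x fun i hi => mix_apply_mem _ _ hi,
      hTJ (mix J x y) y fun i hi => mix_apply_not_mem _ _ hi]
  rw [h1, Measure.prod_prod]

theorem map_eval (i : ι) : Measure.map (fun x : ι → I => x i) (U ι) = volume :=
  Measure.infinitePi_map_eval (fun _ : ι => (volume : Measure I)) i

theorem measure_eval (i : ι) (S : Set I) (hS : MeasurableSet S) :
    U ι {x | x i ∈ S} = volume S := by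
  rw [← map_eval i, Measure.map_apply (measurable_pi_apply i) hS]
  rfl

/-- Reindexing an iid field by an injective map. -/
theorem map_comp_injective {ι' : Type*} (j : ι' → ι) (hj : Function.Injective j) :
    Measure.map (fun x : ι → I => fun i => x (j i)) (U ι) = U ι' := by
  classical
  refine Measure.eq_infinitePi _ fun s t ht => ?_
  have hms : MeasurableSet ((s : Set ι').pi t) := .pi s.countable_toSet fun i _ => ht i
  have hm : Measurable (fun x : ι → I => fun i => x (j i)) := by fun_prop
  rw [Measure.map_apply hm hms]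
  have hne : ∀ i ∈ s, j i ∈ s.image j := fun i hi => Finset.mem_image_of_mem _ hi
  set t' : ι → Set I := fun k => ⋂ i ∈ s, ⋂ (_ : j i = k), t i with ht'
  have htm : ∀ k, MeasurableSet (t' k) := fun k =>
    Finset.measurableSet_biInter s fun i _ => MeasurableSet.iInter fun _ => ht i
  have : (fun x : ι → I => fun i => x (j i)) ⁻¹' ((s : Set ι').pi t) =
      ((s.image j : Finset ι) : Set ι).pi t' := by
    ext x
    simp only [mem_preimage, Set.mem_pi, Finset.mem_coe, Finset.mem_image, ht', mem_iInter]
    constructor
    · rintro h k ⟨i, hi, rfl⟩ i' hi' e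
      rw [← e]; exact h i' hi'
    · intro h i hi
      exact h (j i) ⟨i, hi, rfl⟩ i hi rfl
  rw [this, Measure.infinitePi_pi _ (fun i _ => htm i), Finset.prod_image (fun a _ b _ h => hj h)]
  refine Finset.prod_congr rfl fun i hi => ?_
  congr 1
  ext x
  simp only [ht', mem_iInter]
  constructor
  · intro h; exact h i hi rfl
  · intro h i' hi' e
    rw [hj e]; exact h

/-- Permuting the coordinates preserves the iid field. -/
theorem map_perm (e : Equiv.Perm ι) :
    Measure.map (fun x : ι → I => fun i => x (e i)) (U ι) = U ι :=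
  map_comp_injective e e.injective

end mix

/-- From one uniform label one can extract a countable family of independent uniform labels. -/
theorem exists_split (κ : Type*) [Countable κ] :
    ∃ sp : I → (κ → I), Measurable sp ∧ Measure.map sp volume = U κ := by
  obtain ⟨sp, hsp, h⟩ := MeasureTheory.Measure.exists_measurable_map_eq (U κ)
  exact ⟨sp, hsp, h⟩

/-- Splitting every label of an iid field. -/
theorem map_split {V κ : Type*} [Countable κ] (sp : I → (κ → I)) (hsp : Measurable sp)
    (h : Measure.map sp volume = U κ) :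
    Measure.map (fun (x : V → I) => fun (p : V × κ) => sp (x p.1) p.2) (U V) = U (V × κ) := by
  have h1 : Measure.map (fun (x : V → I) => fun v => sp (x v)) (U V) =
      Measure.infinitePi (fun _ : V => U κ) := by
    rw [Measure.infinitePi_map_pi _ (fun _ => hsp)]
    simp_rw [h]
  have h2 := Measure.infinitePi_map_curry_symm (ι := V) (κ := κ) (X := I)
    (fun _ _ => (volume : Measure I))
  rw [← h1, Measure.map_map (by fun_prop) (by fun_prop)] at h2
  exact h2

end Pool.Agent.TH968.UST
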