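import Pool.Agent.TH968.UST.Defs2
import Pool.Agent.TH968.UST.Mix

/-!
# The label field and its components
-/

namespace Pool.Agent.TH968.UST

open MeasureTheory Set
open scoped ENNReal unitInterval

/-- Kinds of labels: `(0,0,0)` order label, `(1,m,0)` root label of level `m`,
`(2,m,k)` threshold of round `k` of level `m`, `(3,n,0)` resampling label of step `n`. -/
abbrev Knd := Fin 4 × ℕ × ℕ

variable {V : Type*}

def ordL (X : V × Knd → I) : V → I := fun v => X (v, 0, 0, 0)
def rootL (X : V × Knd → I) (m : ℕ) : V → I := fun v => X (v, 1, m, 0)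
def thrL (X : V × Knd → I) (m k : ℕ) : V → I := fun v => X (v, 2, m, k)
def wL (X : V × Knd → I) (n : ℕ) : V → I := fun v => X (v, 3, n, 0)

/-- The level-`m` root set with density `ε`. -/
def rts (m : ℕ) (ε : ℝ) (X : V × Knd → I) : Set V := {x | (rootL X m x : ℝ) < ε}

theorem meas_rts (m : ℕ) (ε : ℝ) (x : V) : MeasurableSet {X : V × Knd → I | x ∈ rts m ε X} := by
  have : Measurable fun X : V × Knd → I => (rootL X m x : ℝ) := by
    unfold rootL; fun_prop
  exact measurableSet_lt this measurable_const

theorem vol_lt_le (ε : ℝ) (h : 0 ≤ ε) :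
    (volume : Measure I) {x | (x : ℝ) < ε} ≤ ENNReal.ofReal ε := by
  rcases le_or_gt ε 1 with h1 | h1
  · have := unitInterval.volume_Iio ⟨ε, h, h1⟩
    exact this.le
  · exact prob_le_one.trans (by simpa using h1.le)

theorem vol_lt_ge (ε : ℝ) (h : 0 ≤ ε) (h1 : ε ≤ 1) :
    (volume : Measure I) {x | (x : ℝ) < ε} = ENNReal.ofReal ε := by
  have := unitInterval.volume_Iio ⟨ε, h, h1⟩
  exact this

theorem meas_lt (ε : ℝ) : MeasurableSet {x : I | (x : ℝ) < ε} :=
  measurableSet_lt (by fun_prop) measurable_const

/-- Order labels are almost surely distinct. -/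
theorem ordL_injective_ae [Countable V] :
    ∀ᵐ X ∂(U (V × Knd)), Function.Injective (ordL X) := by
  have h : ∀ p : V × V, ∀ᵐ X ∂(U (V × Knd)), ordL X p.1 = ordL X p.2 → p.1 = p.2 := by
    rintro ⟨v, w⟩
    by_cases hvw : v = w
    · exact Filter.Eventually.of_forall fun _ _ => hvw
    · have hmeas : MeasurableSet {X : V × Knd → I | ordL X v = ordL X w} := by
        unfold ordL
        exact measurableSet_eq_fun (by fun_prop) (by fun_prop)
      have h0 : U (V × Knd) {X : V × Knd → I | ordL X v = ordL X w} = 0 := by
        rw [measure_mix {((v, 0, 0, 0) : V × Knd)} _ hmeas]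
        rw [lintegral_eq_zero_iff']
        · refine Filter.Eventually.of_forall fun X => ?_
          have : {Y | mix {((v, 0, 0, 0) : V × Knd)} X Y ∈
              {X : V × Knd → I | ordL X v = ordL X w}} =
              {Y : V × Knd → I | Y (w, 0, 0, 0) ∈ ({X (v, 0, 0, 0)} : Set I)} := by
            ext Y
            simp only [ordL, mem_ofPred_eq, mem_singleton_iff]
            rw [mix_apply_mem _ _ (mem_singleton _), mix_apply_not_mem _ _ (by
              simp only [mem_singleton_iff, Prod.mk.injEq]
              exact fun h => hvw h.1.symm)]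
            exact eq_comm
          beta_reduce
          rw [this, measure_eval _ _ (measurableSet_singleton _)]
          simp
        · have := (measurable_measure_prodMk_left (ν := U (V × Knd))
            ((measurable_mix {((v, 0, 0, 0) : V × Knd)}) hmeas))
          exact this.aemeasurable
      filter_upwards [measure_eq_zero_iff_ae_notMem.1 h0] with X hX hh
      exact absurd hh hX
  filter_upwards [ae_all_iff.2 h] with X hX v w hvw
  exact hX (v, w) hvw

end Pool.Agent.TH968.UST
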