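import Pool.Agent.TH968.UST.Defs2
import Pool.Agent.TH830.J90

namespace Pool.Agent.TH968.UST.J10
open MeasureTheory Pool.Agent.TH968.UST
open scoped ENNReal unitInterval
variable {V : Type*}

theorem Conn_map (γ : Equiv.Perm V) (A : Set (Sym2 V)) (a b : V) :
    Conn ⊥ (Sym2.map γ '' A) (γ a) (γ b) ↔ Conn ⊥ A a b :=
  Pool.Agent.TH830.J90.Conn_map γ A a b

theorem comp_map (γ : Equiv.Perm V) (A : Set (Sym2 V)) (a : V) :
    comp (Sym2.map γ '' A) (γ a) = γ '' comp A a :=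
  Pool.Agent.TH830.J90.comp_map γ A a

theorem Aseq_map (γ : Equiv.Perm V) (G : SimpleGraph V) (ε : ℕ → ℝ) (N K : ℕ → ℕ)
    (α : ℕ → V → I) (θ : ℕ → ℕ → V → I) (n : ℕ) :
    Aseq (G.map γ.toEmbedding) ε N K (fun m v => α m (γ.symm v))
      (fun m k v => θ m k (γ.symm v)) n = Sym2.map γ '' Aseq G ε N K α θ n :=
  Pool.Agent.TH830.J90.Aseq_map γ G ε N K α θ n

theorem Kept_map (γ : Equiv.Perm V) (G : SimpleGraph V) (R : Set V) (N K : ℕ)
    (θ : ℕ → V → I) (a b : V) :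
    Kept (G.map γ.toEmbedding) (γ '' R) N K (fun k v => θ k (γ.symm v)) (γ a) (γ b) ↔
      Kept G R N K θ a b :=
  Pool.Agent.TH830.J90.Kept_map γ G R N K θ a b

theorem Tseq_map (γ : Equiv.Perm V)
    (Kc : Finset (Sym2 ℕ) → Finset (Sym2 ℕ) → Finset (Sym2 ℕ) → I → Finset (Sym2 ℕ))
    (s : V → I) (A : ℕ → Set (Sym2 V)) (W : ℕ → V → I) (n : ℕ) :
    Tseq Kc (fun v => s (γ.symm v)) (fun n => Sym2.map γ '' A n) (fun n v => W n (γ.symm v)) n =
      Sym2.map γ '' Tseq Kc s A W n :=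
  Pool.Agent.TH830.J90.Tseq_map γ Kc s A W n

end Pool.Agent.TH968.UST.J10
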