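import Pool.Agent.TH968.UST.Defs
import Pool.Agent.TH365.J75

namespace Pool.Agent.TH968.UST.J3
open Finset Pool.Agent.TH968.UST
variable {V : Type*} [DecidableEq V]

/-- Monotone coupling of the uniform spanning trees of `E' ⊆ E`, from stochastic domination
by Hall's marriage theorem. -/
theorem coupling
    (dom : ∀ E E' : Finset (Sym2 V), E' ⊆ E →
      ∀ g : Finset (Sym2 V) → ℝ, (∀ S T, S ⊆ T → g S ≤ g T) →
      (∑ T ∈ trees ⊥ E, g (T ∩ E')) * ((trees ⊥ E').card : ℝ) ≤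
        (∑ T ∈ trees ⊥ E', g T) * ((trees ⊥ E).card : ℝ))
    (E' E : Finset (Sym2 V)) (hE : E' ⊆ E) :
    ∃ K : Finset (Sym2 V) → ℕ → Finset (Sym2 V),
      (∀ F ∈ trees ⊥ E', ∀ j < (trees ⊥ E).card, K F j ∈ trees ⊥ E ∧ K F j ∩ E' ⊆ F) ∧
      ∀ T ∈ trees ⊥ E,
        ∑ F ∈ trees ⊥ E', ((range (trees ⊥ E).card).filter (fun j => K F j = T)).card =
          (trees ⊥ E').card :=
  Pool.Agent.TH365.J75.coupling dom E' E hE

/-- Under the monotone coupling few vertices see a difference: if `X` contains all endpoints of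
`E \ E'` then at most `4 |X|` vertices are incident to `symmDiff T F`. -/
theorem symmDiff_bound (E' E : Finset (Sym2 V)) (hE : E' ⊆ E) (T F : Finset (Sym2 V))
    (hT : T ∈ trees ⊥ E) (hF : F ∈ trees ⊥ E') (hTF : T ∩ E' ⊆ F)
    (X : Finset V) (hX : ∀ e ∈ E, e ∉ E' → ∀ v ∈ e, v ∈ X)
    (Y : Finset V) (hY : ∀ v ∈ Y, ∃ e ∈ symmDiff T F, v ∈ e) :
    Y.card ≤ 4 * X.card :=
  Pool.Agent.TH365.J75.symmDiff_bound E' E hE T F hT hF hTF X hX Y hY

end Pool.Agent.TH968.UST.J3
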