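import Pool.Agent.TH968.UST.Defs2
import Pool.Agent.TH830.J86

namespace Pool.Agent.TH968.UST.J6
open Finset Pool.Agent.TH968.UST
variable {V : Type*} [DecidableEq V]

/-- Restriction of a spanning forest to a closed set of vertices. -/
theorem IsSpan_restrict (A T : Set (Sym2 V)) (S : Set V) (hS : ∀ a b, s(a, b) ∈ A → a ∈ S → b ∈ S)
    (h : IsSpan ⊥ A T) : IsSpan ⊥ (A ∩ within S) (T ∩ within S) :=
  Pool.Agent.TH830.J86.IsSpan_restrict A T S hS h

/-- Being a spanning forest can be checked on each component. -/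
theorem IsSpan_of_comp (A T : Set (Sym2 V)) (hTA : T ⊆ A)
    (h : ∀ a, IsSpan ⊥ (A ∩ within (comp A a)) (T ∩ within (comp A a))) : IsSpan ⊥ A T :=
  Pool.Agent.TH830.J86.IsSpan_of_comp A T hTA h

/-- Spanning forests of a vertex-disjoint union. -/
theorem trees_union (E₁ E₂ : Finset (Sym2 V)) (S₁ S₂ : Set V) (hd : Disjoint S₁ S₂)
    (h1 : (E₁ : Set (Sym2 V)) ⊆ within S₁) (h2 : (E₂ : Set (Sym2 V)) ⊆ within S₂) :
    (∀ T, T ∈ trees ⊥ (E₁ ∪ E₂) ↔
      T ⊆ E₁ ∪ E₂ ∧ T ∩ E₁ ∈ trees ⊥ E₁ ∧ T ∩ E₂ ∈ trees ⊥ E₂) ∧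
    (trees ⊥ (E₁ ∪ E₂)).card = (trees ⊥ E₁).card * (trees ⊥ E₂).card :=
  Pool.Agent.TH830.J86.trees_union E₁ E₂ S₁ S₂ hd h1 h2

/-- Relabelling by a map that is injective on the vertices. -/
theorem map_injOn {V' : Type*} (j : V → V') (S : Set V) (hj : Set.InjOn j S) :
    Set.InjOn (Sym2.map j) (within S) :=
  Pool.Agent.TH830.J86.map_injOn j S hj

theorem trees_image {V' : Type*} [DecidableEq V'] (j : V → V') (S : Set V) (hj : Set.InjOn j S)
    (E : Finset (Sym2 V)) (hE : (E : Set (Sym2 V)) ⊆ within S) :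
    trees ⊥ (E.image (Sym2.map j)) = (trees ⊥ E).image (fun T => T.image (Sym2.map j)) :=
  Pool.Agent.TH830.J86.trees_image j S hj E hE

end Pool.Agent.TH968.UST.J6
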