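import Pool.Agent.TH968.UST.Defs2
import Pool.Agent.TH993.J87

namespace Pool.Agent.TH968.UST.J7
open MeasureTheory Pool.Agent.TH968.UST
open scoped ENNReal unitInterval
variable {V : Type*}

/-- Probability that the random thresholds separate `p` from `q`, or capture nothing. -/
theorem thr_bound [Countable V] {ι : Type*} (j : ℕ × V → ι) (hj : Function.Injective j)
    (p q : V → ℝ≥0∞) (hp : ∑' r, p r ≤ 1) (hq : ∑' r, q r ≤ 1) (hpf : p.support.Finite) (K : ℕ) :
    (Measure.infinitePi (fun _ : ι => (volume : Measure I)))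
      {X | ¬ ((∃ k < K, ∃ r, ENNReal.ofReal (X (j (k, r))) < p r) ∧
        ∀ k < K, ∀ r, (ENNReal.ofReal (X (j (k, r))) < p r ↔
          ENNReal.ofReal (X (j (k, r))) < q r))} ≤
      K * ∑' r, ((p r - q r) + (q r - p r)) +
        ENNReal.ofReal (Real.exp (-((K : ℝ) * (∑' r, p r).toReal))) :=
  Pool.Agent.TH993.J87.thr_bound j hj p q hp hq hpf K

end Pool.Agent.TH968.UST.J7
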