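import Pool.Agent.TH968.UST.Defs2
import Pool.Agent.TH993.J88

namespace Pool.Agent.TH968.UST.J8
open Pool.Agent.TH968.UST
open scoped ENNReal
variable {V : Type*}

theorem gball_finite (G : SimpleGraph V) (hf : ∀ v, (G.neighborSet v).Finite) (n : ℕ) (v : V) :
    (gball G n v).Finite :=
  Pool.Agent.TH993.J88.gball_finite G hf n v

theorem mem_gball_comm (G : SimpleGraph V) (n : ℕ) (v x : V) :
    x ∈ gball G n v ↔ v ∈ gball G n x :=
  Pool.Agent.TH993.J88.mem_gball_comm G n v x

theorem nu_ne_zero (G : SimpleGraph V) (R : Set V) (n : ℕ) (v r : V) (h : nu G R n v r ≠ 0) :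
    r ∈ R ∧ r ∈ gball G n v :=
  Pool.Agent.TH993.J88.nu_ne_zero G R n v r h

theorem tsum_nu (G : SimpleGraph V) (hf : ∀ v, (G.neighborSet v).Finite) (R : Set V) (n : ℕ)
    (v : V) : ∑' r, nu G R n v r = mass G R n v :=
  Pool.Agent.TH993.J88.tsum_nu G hf R n v

theorem mass_le_one (G : SimpleGraph V) (R : Set V) (n : ℕ) (v : V) : mass G R n v ≤ 1 :=
  Pool.Agent.TH993.J88.mass_le_one G R n v

theorem mass_mono (G : SimpleGraph V) (R : Set V) {m n : ℕ} (h : m ≤ n) (v : V) :
    mass G R m v ≤ mass G R n v :=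
  Pool.Agent.TH993.J88.mass_mono G R h v

theorem iSup_mass (G : SimpleGraph V) (R : Set V) (hR : R.Nonempty)
    (hh : ∀ o v, ⨆ n, hit G o n v = 1) (v : V) : ⨆ n, mass G R n v = 1 :=
  Pool.Agent.TH993.J88.iSup_mass G R hR hh v

/-- Hitting distributions of `R` from nearby points are close when the ball around `u` is far
from `R`. -/
theorem diff_bound (G : SimpleGraph V) (hf : ∀ v, (G.neighborSet v).Finite) (R : Set V)
    (u v : V) (M N : ℕ) (hMN : M ≤ N) (hclear : ∀ x ∈ gball G M u, x ∉ R) :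
    ∑' r, ((nu G R N u r - nu G R N v r) + (nu G R N v r - nu G R N u r)) ≤
      2 * (1 - hit G v M u * mass G R (N - M) v) :=
  Pool.Agent.TH993.J88.diff_bound G hf R u v M N hMN hclear

/-- Components of kept edges are finite. -/
theorem kept_comp_finite (G : SimpleGraph V) (hf : ∀ v, (G.neighborSet v).Finite) (R : Set V)
    (N K : ℕ) (θ : ℕ → V → unitInterval) (A : Set (Sym2 V))
    (hA : ∀ a b, s(a, b) ∈ A → G.Adj a b ∧ Kept G R N K θ a b) (a : V) :
    (comp A a).Finite :=
  Pool.Agent.TH993.J88.kept_comp_finite G hf R N K θ A hA a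

end Pool.Agent.TH968.UST.J8
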