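import Pool.Agent.TH968.UST.Defs2
import Pool.Agent.TH993.J89

namespace Pool.Agent.TH968.UST.J9
open MeasureTheory Pool.Agent.TH968.UST
open scoped ENNReal unitInterval
variable {V : Type*} [Countable V] {Ω : Type*} [MeasurableSpace Ω]

theorem meas_avg (G : Ω → SimpleGraph V) (hG : ∀ a b, MeasurableSet {ω | (G ω).Adj a b})
    (f : Ω → V → ℝ≥0∞) (hf : ∀ v, Measurable fun ω => f ω v) (v : V) :
    Measurable fun ω => avg (G ω) (f ω) v :=
  Pool.Agent.TH993.J89.meas_avg G hG f hf v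

theorem meas_hit (G : Ω → SimpleGraph V) (hG : ∀ a b, MeasurableSet {ω | (G ω).Adj a b})
    (o : V) (n : ℕ) (v : V) : Measurable fun ω => hit (G ω) o n v :=
  Pool.Agent.TH993.J89.meas_hit G hG o n v

theorem meas_mass (G : Ω → SimpleGraph V) (hG : ∀ a b, MeasurableSet {ω | (G ω).Adj a b})
    (R : Ω → Set V) (hR : ∀ v, MeasurableSet {ω | v ∈ R ω}) (n : ℕ) (v : V) :
    Measurable fun ω => mass (G ω) (R ω) n v :=
  Pool.Agent.TH993.J89.meas_mass G hG R hR n v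

theorem meas_nu (G : Ω → SimpleGraph V) (hG : ∀ a b, MeasurableSet {ω | (G ω).Adj a b})
    (R : Ω → Set V) (hR : ∀ v, MeasurableSet {ω | v ∈ R ω}) (n : ℕ) (v r : V) :
    Measurable fun ω => nu (G ω) (R ω) n v r :=
  Pool.Agent.TH993.J89.meas_nu G hG R hR n v r

theorem meas_Kept (G : Ω → SimpleGraph V) (hG : ∀ a b, MeasurableSet {ω | (G ω).Adj a b})
    (R : Ω → Set V) (hR : ∀ v, MeasurableSet {ω | v ∈ R ω}) (N K : ℕ)
    (θ : Ω → ℕ → V → I) (hθ : ∀ k v, Measurable fun ω => θ ω k v) (a b : V) :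
    MeasurableSet {ω | Kept (G ω) (R ω) N K (θ ω) a b} :=
  Pool.Agent.TH993.J89.meas_Kept G hG R hR N K θ hθ a b

theorem meas_Aseq (G : Ω → SimpleGraph V) (hG : ∀ a b, MeasurableSet {ω | (G ω).Adj a b})
    (ε : ℕ → ℝ) (N K : ℕ → ℕ) (α : Ω → ℕ → V → I) (hα : ∀ m v, Measurable fun ω => α ω m v)
    (θ : Ω → ℕ → ℕ → V → I) (hθ : ∀ m k v, Measurable fun ω => θ ω m k v) (n : ℕ)
    (e : Sym2 V) : MeasurableSet {ω | e ∈ Aseq (G ω) ε N K (α ω) (θ ω) n} :=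
  Pool.Agent.TH993.J89.meas_Aseq G hG ε N K α hα θ hθ n e

theorem meas_comp (A : Ω → Set (Sym2 V)) (hA : ∀ e, MeasurableSet {ω | e ∈ A ω}) (a x : V) :
    MeasurableSet {ω | x ∈ comp (A ω) a} :=
  Pool.Agent.TH993.J89.meas_comp A hA a x

/-- Cardinality of a random set is measurable. -/
theorem meas_ncard {α : Type*} [Countable α] (Z : Ω → Set α)
    (hZ : ∀ x, MeasurableSet {ω | x ∈ Z ω}) : Measurable fun ω => (Z ω).ncard :=
  Pool.Agent.TH993.J89.meas_ncard Z hZ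

theorem meas_toFin {α : Type*} [Countable α] (Z : Ω → Set α)
    (hZ : ∀ x, MeasurableSet {ω | x ∈ Z ω}) (S : Finset α) :
    MeasurableSet {ω | toFin (Z ω) = S} :=
  Pool.Agent.TH993.J89.meas_toFin Z hZ S

theorem meas_Tseq
    (Kc : Finset (Sym2 ℕ) → Finset (Sym2 ℕ) → Finset (Sym2 ℕ) → I → Finset (Sym2 ℕ))
    (hKc : ∀ E' E F T, MeasurableSet {w : I | Kc E' E F w = T})
    (s : Ω → V → I) (hs : ∀ v, Measurable fun ω => s ω v)
    (A : Ω → ℕ → Set (Sym2 V)) (hA : ∀ n e, MeasurableSet {ω | e ∈ A ω n})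
    (W : Ω → ℕ → V → I) (hW : ∀ n v, Measurable fun ω => W ω n v) (n : ℕ) (e : Sym2 V) :
    MeasurableSet {ω | e ∈ Tseq Kc (s ω) (A ω) (W ω) n} :=
  Pool.Agent.TH993.J89.meas_Tseq Kc hKc s hs A hA W hW n e

end Pool.Agent.TH968.UST.J9
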