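import Pool.Agent.TH968.UST.Defs2

/-!
# The canonical coupling kernel
-/

namespace Pool.Agent.TH968.UST

open MeasureTheory Set
open scoped ENNReal unitInterval

/-- Requirements on the canonical coupling kernel. -/
structure GoodKc
    (Kc : Finset (Sym2 ℕ) → Finset (Sym2 ℕ) → Finset (Sym2 ℕ) → I → Finset (Sym2 ℕ)) : Prop where
  meas : ∀ E' E F T, MeasurableSet {w : I | Kc E' E F w = T}
  mem : ∀ E' E F w, E' ⊆ E → F ∈ trees ⊥ E' → Kc E' E F w ∈ trees ⊥ E
  mono : ∀ E' E F w, E' ⊆ E → F ∈ trees ⊥ E' → Kc E' E F w ∩ E' ⊆ F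
  law : ∀ E' E T, E' ⊆ E → T ∈ trees ⊥ E →
    (∑ F ∈ trees ⊥ E', (volume : Measure I) {w : I | Kc E' E F w = T}) =
      ((trees ⊥ E').card : ℝ≥0∞) / ((trees ⊥ E).card : ℝ≥0∞)

/-- A uniform sample of `Fin N` from a uniform label. -/
theorem exists_uniform (N : ℕ) (hN : 0 < N) :
    ∃ u : I → Fin N, Measurable u ∧ ∀ j, (volume : Measure I) {w | u w = j} = (N : ℝ≥0∞)⁻¹ := by
  have : Nonempty (Fin N) := ⟨⟨0, hN⟩⟩
  obtain ⟨u, hu, h⟩ := MeasureTheory.Measure.exists_measurable_map_eq
    ((PMF.uniformOfFintype (Fin N)).toMeasure)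
  refine ⟨u, hu, fun j => ?_⟩
  have h1 : (volume : Measure I) {w | u w = j} = Measure.map u volume {j} := by
    rw [Measure.map_apply hu (measurableSet_singleton j)]; rfl
  rw [h1, h, PMF.toMeasure_apply_singleton _ _ (measurableSet_singleton j)]
  simp

theorem exists_goodKc
    (coupling : ∀ E' E : Finset (Sym2 ℕ), E' ⊆ E →
      ∃ K : Finset (Sym2 ℕ) → ℕ → Finset (Sym2 ℕ),
      (∀ F ∈ trees ⊥ E', ∀ j < (trees ⊥ E).card, K F j ∈ trees ⊥ E ∧ K F j ∩ E' ⊆ F) ∧
      ∀ T ∈ trees ⊥ E,
        ∑ F ∈ trees ⊥ E', ((Finset.range (trees ⊥ E).card).filter (fun j => K F j = T)).card =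
          (trees ⊥ E').card)
    (hne : ∀ E : Finset (Sym2 ℕ), (trees ⊥ E).Nonempty) : ∃ Kc, GoodKc Kc := by
  classical
  choose! K hK1 hK2 using coupling
  have hpos : ∀ E : Finset (Sym2 ℕ), 0 < (trees ⊥ E).card := fun E => (hne E).card_pos
  choose u hum hu using fun E : Finset (Sym2 ℕ) => exists_uniform _ (hpos E)
  refine ⟨fun E' E F w => K E' E F (u E w), ?_, ?_, ?_, ?_⟩
  · intro E' E F T
    have : {w : I | K E' E F (u E w) = T} = u E ⁻¹' {j | K E' E F j = T} := rfl
    rw [this]
    exact hum E (Set.toFinite _).measurableSet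
  · intro E' E F w hE hF
    exact (hK1 E' E hE F hF (u E w) (u E w).2).1
  · intro E' E F w hE hF
    exact (hK1 E' E hE F hF (u E w) (u E w).2).2
  · intro E' E T hE hT
    have h1 : ∀ F, (volume : Measure I) {w : I | K E' E F (u E w) = T} =
        (((Finset.range (trees ⊥ E).card).filter (fun j => K E' E F j = T)).card : ℝ≥0∞) *
          ((trees ⊥ E).card : ℝ≥0∞)⁻¹ := by
      intro F
      have h2 : {w : I | K E' E F (u E w) = T} =
          ⋃ j ∈ (Finset.univ : Finset (Fin (trees ⊥ E).card)).filter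
            (fun j : Fin (trees ⊥ E).card => K E' E F (j : ℕ) = T),
            (fun j : Fin (trees ⊥ E).card => {w : I | u E w = j}) j := by
        ext w
        simp
      rw [h2, measure_biUnion_finset]
      · simp_rw [hu]
        rw [Finset.sum_const, nsmul_eq_mul]
        congr 2
        refine Finset.card_bij (fun j _ => (j : ℕ)) ?_ ?_ ?_
        · intro j hj
          simp only [Finset.mem_filter, Finset.mem_univ, true_and] at hj
          simp [hj]
        · intro a _ b _ h
          exact Fin.ext h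
        · intro b hb
          simp only [Finset.mem_filter, Finset.mem_range] at hb
          exact ⟨⟨b, hb.1⟩, by simp [hb.2], rfl⟩
      · intro a _ b _ hab
        refine Set.disjoint_left.2 fun w h1 h2 => hab ?_
        simp only [mem_ofPred_eq] at h1 h2
        rw [← h1, ← h2]
      · intro j _
        exact hum E (measurableSet_singleton j)
    simp_rw [h1]
    rw [← Finset.sum_mul, ← Nat.cast_sum, hK2 E' E hE T hT]
    rfl

end Pool.Agent.TH968.UST
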