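import Pool.Agent.TH968.UST.Rank
import Pool.Agent.TH968.UST.Kc
import Pool.Agent.TH968.UST.Mix
import Pool.Agent.TH968.UST.J6

/-!
# One step of the construction on a component
-/

namespace Pool.Agent.TH968.UST

open MeasureTheory Set
open scoped ENNReal unitInterval

variable {V : Type*}

abbrev KcT := Finset (Sym2 ℕ) → Finset (Sym2 ℕ) → Finset (Sym2 ℕ) → I → Finset (Sym2 ℕ)

theorem mem_trees {r : Setoid V} {E T : Finset (Sym2 V)} :
    T ∈ trees r E ↔ IsSpan r (E : Set (Sym2 V)) (T : Set (Sym2 V)) := by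
  classical
  unfold trees
  rw [Finset.mem_filter, Finset.mem_powerset]
  exact ⟨fun h => h.2, fun h => ⟨Finset.coe_subset.1 h.1, h⟩⟩

theorem subset_of_mem_trees {r : Setoid V} {E T : Finset (Sym2 V)} (h : T ∈ trees r E) :
    T ⊆ E := Finset.coe_subset.1 (mem_trees.1 h).1

section one_step

variable {Kc : KcT} {s : V → I} {A A' T : Set (Sym2 V)} {w : V → I}

theorem step_subset : step Kc s A A' T w ⊆ A' := by
  rintro e ⟨a, b, rfl, h, -⟩
  exact h

theorem mem_step_iff (hs : Function.Injective s) {C : Set V} (hC : C.Finite) {a0 : V}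
    (hCa : C = comp A' a0) {x0 : V} (hx0 : x0 ∈ C) (h0 : rk s C x0 = 0) {a b : V} (ha : a ∈ C) :
    s(a, b) ∈ step Kc s A A' T w ↔ s(a, b) ∈ A' ∧
      s(rk s C a, rk s C b) ∈ Kc (img s C A) (img s C A') (img s C T) (w x0) := by
  have hcomp : ∀ y ∈ C, comp A' y = C := by
    intro y hy
    rw [hCa] at hy ⊢
    exact comp_eq hy
  constructor
  · rintro ⟨a', b', hab, hA', x, hx, hxr, hK⟩
    have hmem : s(a, b) ∈ A' := by rw [hab]; exact hA'
    have hb : b ∈ C := by
      rw [hCa]; rw [hCa] at ha
      exact closed_comp A' a0 a b hmem ha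
    have ha' : a' ∈ C := by
      rcases Sym2.eq_iff.1 hab with ⟨h1, _⟩ | ⟨_, h2⟩
      · rw [← h1]; exact ha
      · rw [← h2]; exact hb
    rw [hcomp a' ha'] at hx hxr hK
    have hxx : x = x0 := rk_injOn hC hs.injOn hx hx0 (hxr.trans h0.symm)
    refine ⟨hmem, ?_⟩
    rw [hxx] at hK
    have : s(rk s C a, rk s C b) = s(rk s C a', rk s C b') := by
      have := congrArg (Sym2.map (rk s C)) hab
      simpa using this
    rw [this]; exact hK
  · rintro ⟨h1, h2⟩
    refine ⟨a, b, rfl, h1, x0, ?_, ?_, ?_⟩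
    · rw [hcomp a ha]; exact hx0
    · rw [hcomp a ha]; exact h0
    · rw [hcomp a ha]; exact h2

theorem res_mem_trees (h : IsSpan ⊥ A T) {S : Set V} (hS : S.Finite) (hcl : Closed A S) :
    res T S ∈ trees ⊥ (res A S) := by
  classical
  rw [mem_trees, coe_res _ hS, coe_res _ hS]
  exact J6.IsSpan_restrict A T S hcl h

theorem img_mem_trees (h : IsSpan ⊥ A T) {C : Set V} (hs : Function.Injective s) (hC : C.Finite)
    (hcl : Closed A C) : img s C T ∈ trees ⊥ (img s C A) := by
  classical
  rw [img_eq s hC, img_eq s hC, J6.trees_image (rk s C) C (rk_injOn hC hs.injOn) (res A C)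
    (by rw [coe_res A hC]; exact inter_subset_right)]
  exact Finset.mem_image_of_mem _ (res_mem_trees h hC hcl)

theorem res_mono (h : A ⊆ A') {C : Set V} (hC : C.Finite) : res A C ⊆ res A' C := by
  intro e he
  rw [mem_res _ hC] at he ⊢
  exact ⟨h he.1, he.2⟩

theorem img_mono (h : A ⊆ A') {C : Set V} (hC : C.Finite) : img s C A ⊆ img s C A' := by
  classical
  rw [img_eq s hC, img_eq s hC]
  exact Finset.image_subset_image (res_mono h hC)

theorem step_within [DecidableEq V] (good : GoodKc Kc) (hAA' : A ⊆ A') (hT : IsSpan ⊥ A T)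
    (hs : Function.Injective s) {C : Set V} (hC : C.Finite) {a0 : V}
    (hCa : C = comp A' a0) {x0 : V} (hx0 : x0 ∈ C) (h0 : rk s C x0 = 0) :
    ∃ T' ∈ trees ⊥ (res A' C), Kc (img s C A) (img s C A') (img s C T) (w x0) =
      T'.image (Sym2.map (rk s C)) ∧ step Kc s A A' T w ∩ within C = (T' : Set (Sym2 V)) := by
  have hclA' : Closed A' C := hCa ▸ closed_comp A' a0
  have hclA : Closed A C := hclA'.anti hAA'
  have hinj := rk_injOn hC (hs.injOn (s := C))
  have h1 := good.mem (img s C A) (img s C A') (img s C T) (w x0) (img_mono hAA' hC)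
    (img_mem_trees hT hs hC hclA)
  have h2 : img s C A' = (res A' C).image (Sym2.map (rk s C)) := img_eq s hC A'
  have h3 := J6.trees_image (rk s C) C hinj (res A' C)
    (by rw [coe_res A' hC]; exact inter_subset_right)
  rw [← h2] at h3
  rw [h3, Finset.mem_image] at h1
  obtain ⟨T', hT', hT'2⟩ := h1
  refine ⟨T', hT', hT'2.symm, ?_⟩
  have hsub : (T' : Set (Sym2 V)) ⊆ A' ∩ within C := by
    rw [← coe_res A' hC]
    exact Finset.coe_subset.2 (subset_of_mem_trees hT')
  have hmi := J6.map_injOn (rk s C) C hinj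
  ext e
  induction e with
  | _ a b =>
    constructor
    · rintro ⟨he, hw⟩
      have hw' := mem_within.1 hw
      rw [mem_step_iff hs hC hCa hx0 h0 hw'.1] at he
      have he2 := he.2
      rw [← hT'2, Finset.mem_image] at he2
      obtain ⟨e', he', hee⟩ := he2
      have : e' = s(a, b) := hmi (hsub he').2 hw hee
      rw [← this]; exact he'
    · intro he
      have hw := (hsub he).2
      refine ⟨?_, hw⟩
      have hw' := mem_within.1 hw
      rw [mem_step_iff hs hC hCa hx0 h0 hw'.1]
      refine ⟨(hsub he).1, ?_⟩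
      rw [← hT'2]
      exact Finset.mem_image_of_mem _ he

theorem image_inj [DecidableEq V] (hs : Function.Injective s) {C : Set V} (hC : C.Finite)
    {F F' : Finset (Sym2 V)} (hF : (F : Set (Sym2 V)) ⊆ within C)
    (hF' : (F' : Set (Sym2 V)) ⊆ within C)
    (h : F.image (Sym2.map (rk s C)) = F'.image (Sym2.map (rk s C))) : F = F' := by
  have hmi := J6.map_injOn (rk s C) C (rk_injOn hC (hs.injOn (s := C)))
  have h' := congrArg (fun S : Finset (Sym2 ℕ) => (S : Set (Sym2 ℕ))) h
  simp only [Finset.coe_image] at h'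
  apply Finset.coe_injective
  exact (hmi.image_eq_image_iff hF hF').1 h'

/-- The step produces spanning forests and is decreasing on the old edges. -/
theorem step_span (good : GoodKc Kc) (hAA' : A ⊆ A') (hT : IsSpan ⊥ A T)
    (hs : Function.Injective s) (hfin : ∀ a, (comp A' a).Finite) :
    IsSpan ⊥ A' (step Kc s A A' T w) ∧ step Kc s A A' T w ∩ A ⊆ T := by
  classical
  constructor
  · apply J6.IsSpan_of_comp _ _ step_subset
    intro a
    obtain ⟨x0, hx0, h0⟩ := exists_rk_zero (s := s) (hfin a) ⟨a, mem_comp_self A' a⟩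
    obtain ⟨T', hT', -, h2⟩ := step_within (w := w) good hAA' hT hs (hfin a) rfl hx0 h0
    rw [h2, ← coe_res A' (hfin a), ← mem_trees]
    exact hT'
  · rintro e ⟨he, heA⟩
    induction e with
    | _ a b =>
      set C := comp A' a with hC
      obtain ⟨x0, hx0, h0⟩ := exists_rk_zero (s := s) (hfin a) ⟨a, mem_comp_self A' a⟩
      have ha : a ∈ C := mem_comp_self A' a
      have hb : b ∈ C := closed_comp A' a a b (step_subset he) ha
      have hw : s(a, b) ∈ within C := mem_within.2 ⟨ha, hb⟩
      rw [mem_step_iff hs (hfin a) hC hx0 h0 ha] at he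
      have hclA : Closed A C := (hC ▸ closed_comp A' a : Closed A' C).anti hAA'
      have h3 := good.mono (img s C A) (img s C A') (img s C T) (w x0) (img_mono hAA' (hfin a))
        (img_mem_trees hT hs (hfin a) hclA)
      have h4 : s(rk s C a, rk s C b) ∈ img s C A := by
        rw [img_eq s (hfin a)]
        exact Finset.mem_image_of_mem (Sym2.map (rk s C)) ((mem_res A (hfin a)).2 ⟨heA, hw⟩)
      have h5 := h3 (Finset.mem_inter.2 ⟨he.2, h4⟩)
      rw [img_eq s (hfin a), Finset.mem_image] at h5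
      obtain ⟨e', he', hee⟩ := h5
      rw [mem_res _ (hfin a)] at he'
      have : e' = s(a, b) := J6.map_injOn (rk s C) C (rk_injOn (hfin a) (hs.injOn (s := C)))
        he'.2 hw hee
      rw [← this]; exact he'.1

end one_step

end Pool.Agent.TH968.UST
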