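import Pool.Agent.TH968.UST.Law1
import Pool.Agent.TH968.UST.J9

/-!
# The law of the forests `Tseq` for a fixed environment
-/

namespace Pool.Agent.TH968.UST

open MeasureTheory Set
open scoped ENNReal unitInterval

variable {V : Type*}

/-- Standing assumptions on the environment: order labels distinct, edge sets increasing from
`∅` with finite components. -/
structure Env (s : V → I) (A : ℕ → Set (Sym2 V)) : Prop where
  inj : Function.Injective s
  zero : A 0 = ∅
  mono : ∀ n, A n ⊆ A (n + 1)
  fin : ∀ n a, (comp (A n) a).Finite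

theorem Env.mono' {s : V → I} {A : ℕ → Set (Sym2 V)} (h : Env s A) {m n : ℕ} (hmn : m ≤ n) :
    A m ⊆ A n := monotone_nat_of_le_succ h.mono hmn

theorem isSpan_empty (r : Setoid V) : IsSpan r (∅ : Set (Sym2 V)) ∅ :=
  ⟨subset_rfl, fun _ _ h => h.elim, fun _ _ h => h.elim⟩

variable {Kc : KcT} {s : V → I} {A : ℕ → Set (Sym2 V)}

theorem Tseq_span (good : GoodKc Kc) (env : Env s A) (W : ℕ → V → I) (n : ℕ) :
    IsSpan ⊥ (A n) (Tseq Kc s A W n) := by
  induction n with
  | zero => rw [env.zero]; exact isSpan_empty _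
  | succ n ih => exact (step_span good (env.mono n) ih env.inj (env.fin (n + 1))).1

theorem Tseq_mono (good : GoodKc Kc) (env : Env s A) (W : ℕ → V → I) (n : ℕ) :
    Tseq Kc s A W (n + 1) ∩ A n ⊆ Tseq Kc s A W n :=
  (step_span good (env.mono n) (Tseq_span good env W n) env.inj (env.fin (n + 1))).2

/-- Locality: on a closed set `S` the forest at time `n` only depends on the labels used before
time `n` at the vertices of `S`. -/
theorem Tseq_congr (env : Env s A) {S : Set V} (W W' : ℕ → V → I) (n : ℕ) (hS : Closed (A n) S)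
    (h : ∀ k < n, ∀ v ∈ S, W k v = W' k v) :
    Tseq Kc s A W n ∩ within S = Tseq Kc s A W' n ∩ within S := by
  induction n with
  | zero => rfl
  | succ n ih =>
    have hS' : Closed (A n) S := hS.anti (env.mono n)
    have ih' := ih hS' fun k hk v hv => h k (hk.trans n.lt_succ_self) v hv
    have key : ∀ W W' : ℕ → V → I, (∀ k < n + 1, ∀ v ∈ S, W k v = W' k v) →
        Tseq Kc s A W n ∩ within S = Tseq Kc s A W' n ∩ within S →
        Tseq Kc s A W (n + 1) ∩ within S ⊆ Tseq Kc s A W' (n + 1) ∩ within S := by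
      intro W W' h ih' e he
      refine ⟨?_, he.2⟩
      obtain ⟨a, b, rfl, hA', x, hx, hxr, hK⟩ := he.1
      have hw := mem_within.1 he.2
      have hsub : comp (A (n + 1)) a ⊆ S := comp_subset hS hw.1
      refine ⟨a, b, rfl, hA', x, hx, hxr, ?_⟩
      rw [← h n n.lt_succ_self x (hsub hx)]
      have himg : img s (comp (A (n + 1)) a) (Tseq Kc s A W n) =
          img s (comp (A (n + 1)) a) (Tseq Kc s A W' n) := by
        unfold img
        congr 1
        ext e
        constructor
        · rintro ⟨x, y, hx, hy, hxy, rfl⟩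
          have : s(x, y) ∈ Tseq Kc s A W' n ∩ within S := by
            rw [← ih']; exact ⟨hxy, mem_within.2 ⟨hsub hx, hsub hy⟩⟩
          exact ⟨x, y, hx, hy, this.1, rfl⟩
        · rintro ⟨x, y, hx, hy, hxy, rfl⟩
          have : s(x, y) ∈ Tseq Kc s A W n ∩ within S := by
            rw [ih']; exact ⟨hxy, mem_within.2 ⟨hsub hx, hsub hy⟩⟩
          exact ⟨x, y, hx, hy, this.1, rfl⟩
      rw [← himg]
      exact hK
    exact Subset.antisymm (key W W' h ih')
      (key W' W (fun k hk v hv => (h k hk v hv).symm) ih'.symm)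

/-- The forest at time `n` as a function of the field `W : ℕ × V → I`. -/
def TT (Kc : KcT) (s : V → I) (A : ℕ → Set (Sym2 V)) (n : ℕ) (W : ℕ × V → I) : Set (Sym2 V) :=
  Tseq Kc s A (fun n v => W (n, v)) n

theorem meas_TT [Countable V] (good : GoodKc Kc) (n : ℕ) (e : Sym2 V) :
    MeasurableSet {W | e ∈ TT Kc s A n W} :=
  J9.meas_Tseq Kc good.meas (fun _ : ℕ × V → I => s) (fun _ => measurable_const) (fun _ => A)
    (fun _ _ => MeasurableSet.const _) (fun W n v => W (n, v)) (fun _ _ => by fun_prop) n e

theorem meas_TT_eq [Countable V] (good : GoodKc Kc) (n : ℕ) (S : Set V) (F : Set (Sym2 V)) :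
    MeasurableSet {W | TT Kc s A n W ∩ within S = F} := by
  have : {W | TT Kc s A n W ∩ within S = F} =
      ⋂ e : Sym2 V, {W | e ∈ TT Kc s A n W ∩ within S ↔ e ∈ F} := by
    ext W
    simp [Set.ext_iff]
  rw [this]
  refine MeasurableSet.iInter fun e => ?_
  by_cases h1 : e ∈ within S <;> by_cases h2 : e ∈ F
  · simpa [h1, h2] using meas_TT good n e
  · have : {W | e ∈ TT Kc s A n W ∩ within S ↔ e ∈ F} = {W | e ∈ TT Kc s A n W}ᶜ := by
      ext W; simp [h1, h2]
    rw [this]
    exact (meas_TT good n e).compl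
  · simp [h1, h2]
  · simp [h1, h2]

theorem trees_card_ne_zero {E F : Finset (Sym2 V)} (h : F ∈ trees ⊥ E) :
    ((trees ⊥ E).card : ℝ≥0∞) ≠ 0 := by
  simpa using Finset.ne_empty_of_mem h

/-- Law on one component. -/
theorem law_component [Countable V] [DecidableEq V] (good : GoodKc Kc) (env : Env s A) (n : ℕ)
    {C : Set V} {a0 : V} (hCa : C = comp (A (n + 1)) a0)
    (ih : ∀ F ∈ trees ⊥ (res (A n) C), U (ℕ × V) {W | TT Kc s A n W ∩ within C = F} =
      ((trees ⊥ (res (A n) C)).card : ℝ≥0∞)⁻¹)
    (F' : Finset (Sym2 V)) (hF' : F' ∈ trees ⊥ (res (A (n + 1)) C)) :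
    U (ℕ × V) {W | TT Kc s A (n + 1) W ∩ within C = F'} =
      ((trees ⊥ (res (A (n + 1)) C)).card : ℝ≥0∞)⁻¹ := by
  have hC : C.Finite := hCa ▸ env.fin (n + 1) a0
  have hclA' : Closed (A (n + 1)) C := hCa ▸ closed_comp _ a0
  have hclA : Closed (A n) C := hclA'.anti (env.mono n)
  have hinj := rk_injOn hC (env.inj.injOn (s := C))
  obtain ⟨x0, hx0, h0⟩ := exists_rk_zero (s := s) hC ⟨a0, hCa ▸ mem_comp_self _ a0⟩
  set j := Sym2.map (rk s C) with hj
  have hsubF' : (F' : Set (Sym2 V)) ⊆ within C := by
    have := Finset.coe_subset.2 (subset_of_mem_trees hF')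
    rw [coe_res _ hC] at this
    exact this.trans inter_subset_right
  -- the event in terms of the kernel
  have hev : ∀ W : ℕ × V → I, TT Kc s A (n + 1) W ∩ within C = (F' : Set (Sym2 V)) ↔
      Kc (img s C (A n)) (img s C (A (n + 1))) (img s C (TT Kc s A n W)) (W (n, x0)) =
        F'.image j := by
    intro W
    obtain ⟨T', hT', h1, h2⟩ := step_within (w := fun v => W (n, v)) good (env.mono n)
      (Tseq_span good env (fun n v => W (n, v)) n) env.inj hC hCa hx0 h0
    change step Kc s (A n) (A (n + 1)) (Tseq Kc s A (fun n v => W (n, v)) n)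
      (fun v => W (n, v)) ∩ within C = (F' : Set (Sym2 V)) ↔ _
    have h1' : Kc (img s C (A n)) (img s C (A (n + 1))) (img s C (TT Kc s A n W)) (W (n, x0)) =
      T'.image j := h1
    rw [h2, h1']
    have hsubT' : (T' : Set (Sym2 V)) ⊆ within C := by
      have := Finset.coe_subset.2 (subset_of_mem_trees hT')
      rw [coe_res _ hC] at this
      exact this.trans inter_subset_right
    constructor
    · intro h
      rw [Finset.coe_injective h]
    · intro h
      rw [image_inj env.inj hC hsubT' hsubF' h]
  -- decomposition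
  have hdec : {W | TT Kc s A (n + 1) W ∩ within C = (F' : Set (Sym2 V))} =
      ⋃ F ∈ trees ⊥ (res (A n) C), ({W | TT Kc s A n W ∩ within C = (F : Set (Sym2 V))} ∩
        {W | Kc (img s C (A n)) (img s C (A (n + 1))) (F.image j) (W (n, x0)) = F'.image j}) := by
    ext W
    simp only [mem_ofPred_eq, mem_iUnion, mem_inter_iff, exists_prop]
    rw [hev W]
    have himg : ∀ F : Finset (Sym2 V), TT Kc s A n W ∩ within C = (F : Set (Sym2 V)) →
        img s C (TT Kc s A n W) = F.image j := by
      intro F h
      rw [img_eq s hC]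
      congr 1
      apply Finset.coe_injective
      rw [coe_res _ hC, h]
    constructor
    · intro h
      refine ⟨res (TT Kc s A n W) C, res_mem_trees (Tseq_span good env _ n) hC hclA,
        (coe_res _ hC).symm, ?_⟩
      rw [← himg _ (coe_res _ hC).symm]
      exact h
    · rintro ⟨F, -, hF1, hF2⟩
      rw [himg F hF1]
      exact hF2
  have hmK : ∀ F : Finset (Sym2 V), MeasurableSet {W : ℕ × V → I |
      Kc (img s C (A n)) (img s C (A (n + 1))) (F.image j) (W (n, x0)) = F'.image j} := by
    intro F
    have hm := good.meas (img s C (A n)) (img s C (A (n + 1))) (F.image j) (F'.image j)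
    exact (measurable_pi_apply (X := fun _ : ℕ × V => I) (n, x0)) hm
  rw [hdec, measure_biUnion_finset]
  · -- each term
    have hterm : ∀ F ∈ trees ⊥ (res (A n) C),
        U (ℕ × V) ({W | TT Kc s A n W ∩ within C = (F : Set (Sym2 V))} ∩
          {W | Kc (img s C (A n)) (img s C (A (n + 1))) (F.image j) (W (n, x0)) = F'.image j}) =
        ((trees ⊥ (res (A n) C)).card : ℝ≥0∞)⁻¹ *
          volume {w : I | Kc (img s C (A n)) (img s C (A (n + 1))) (F.image j) w =
            F'.image j} := by
      intro F hF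
      rw [indep_of_dep {p : ℕ × V | p.1 < n}, ih F hF]
      · congr 1
        exact measure_eval (n, x0) _ (good.meas _ _ _ _)
      · exact meas_TT_eq good n C F
      · exact hmK F
      · intro W W' h
        have := Tseq_congr (Kc := Kc) env (S := C) (fun n v => W (n, v)) (fun n v => W' (n, v)) n
          hclA fun k hk v _ => h (k, v) hk
        show Tseq Kc s A (fun n v => W (n, v)) n ∩ within C = _ ↔
          Tseq Kc s A (fun n v => W' (n, v)) n ∩ within C = _
        rw [this]
      · intro W W' h
        have : W (n, x0) = W' (n, x0) := h (n, x0) (by simp)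
        show Kc _ _ _ (W (n, x0)) = _ ↔ Kc _ _ _ (W' (n, x0)) = _
        rw [this]
    rw [Finset.sum_congr rfl hterm, ← Finset.mul_sum]
    have h3 := J6.trees_image (rk s C) C hinj (res (A n) C)
      (by rw [coe_res _ hC]; exact inter_subset_right)
    rw [← img_eq s hC] at h3
    have h3' := J6.trees_image (rk s C) C hinj (res (A (n + 1)) C)
      (by rw [coe_res _ hC]; exact inter_subset_right)
    rw [← img_eq s hC] at h3'
    have hsub : ∀ {B : Set (Sym2 V)} {F : Finset (Sym2 V)}, F ∈ trees ⊥ (res B C) →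
        (F : Set (Sym2 V)) ⊆ within C := by
      intro B F hF
      have := Finset.coe_subset.2 (subset_of_mem_trees hF)
      rw [coe_res _ hC] at this
      exact this.trans inter_subset_right
    have hinjOn : ∀ B : Set (Sym2 V), Set.InjOn (fun T : Finset (Sym2 V) => T.image j)
        (trees ⊥ (res B C)) := by
      intro B F1 h1 F2 h2 h
      exact image_inj env.inj hC (hsub h1) (hsub h2) h
    have hlaw := good.law (img s C (A n)) (img s C (A (n + 1))) (F'.image j)
      (img_mono (env.mono n) hC) (by rw [h3']; exact Finset.mem_image_of_mem _ hF')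
    rw [h3, Finset.sum_image (hinjOn (A n)), Finset.card_image_of_injOn (hinjOn (A n)),
      h3', Finset.card_image_of_injOn (hinjOn (A (n + 1)))] at hlaw
    rw [hlaw]
    have hT0 : ((trees ⊥ (res (A n) C)).card : ℝ≥0∞) ≠ 0 :=
      trees_card_ne_zero (res_mem_trees (Tseq_span good env (fun _ _ => 0) n) hC hclA)
    rw [div_eq_mul_inv, ← mul_assoc, ENNReal.inv_mul_cancel hT0 (ENNReal.natCast_ne_top _),
      one_mul]
  · -- disjointness
    intro F1 _ F2 _ h12
    refine Set.disjoint_left.2 fun W h1 h2 => h12 ?_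
    exact Finset.coe_injective (h1.1.symm.trans h2.1)
  · intro F _
    exact (meas_TT_eq good n C F).inter (hmK F)

end Pool.Agent.TH968.UST
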