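import Pool.Agent.TH968.UST.Law2

/-!
# The law of the forests on closed finite sets
-/

namespace Pool.Agent.TH968.UST

open MeasureTheory Set
open scoped ENNReal unitInterval

variable {V : Type*}

variable {Kc : KcT} {s : V → I} {A : ℕ → Set (Sym2 V)}

theorem trees_empty : trees ⊥ (∅ : Finset (Sym2 V)) = {∅} := by
  classical
  ext F
  rw [Finset.mem_singleton]
  constructor
  · intro h
    exact Finset.subset_empty.1 (subset_of_mem_trees h)
  · rintro rfl
    rw [mem_trees]
    simpa using isSpan_empty (V := V) ⊥

theorem res_empty (B : Set (Sym2 V)) : res B (∅ : Set V) = ∅ := by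
  apply Finset.coe_injective
  rw [coe_res _ Set.finite_empty, within_empty]
  simp

/-- `T_n ∩ E(S)` is a uniform spanning forest of `A_n ∩ E(S)`. -/
theorem law_TT [Countable V] (good : GoodKc Kc) (env : Env s A) (n : ℕ) :
    ∀ S : Set V, S.Finite → Closed (A n) S → ∀ F ∈ trees ⊥ (res (A n) S),
      U (ℕ × V) {W | TT Kc s A n W ∩ within S = F} =
        ((trees ⊥ (res (A n) S)).card : ℝ≥0∞)⁻¹ := by
  classical
  induction n with
  | zero =>
    intro S hS hcl F hF
    have h0 : res (A 0) S = ∅ := by
      apply Finset.coe_injective
      rw [coe_res _ hS, env.zero]; simp
    rw [h0, trees_empty] at hF ⊢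
    rw [Finset.mem_singleton] at hF
    subst hF
    have : {W : ℕ × V → I | TT Kc s A 0 W ∩ within S = ((∅ : Finset (Sym2 V)) : Set (Sym2 V))} =
        univ := by
      ext W
      simp [TT, Tseq]
    rw [this]
    simp
  | succ n ih =>
    -- induction on the size of S
    have main : ∀ k : ℕ, ∀ S : Set V, S.Finite → S.ncard = k → Closed (A (n + 1)) S →
        ∀ F ∈ trees ⊥ (res (A (n + 1)) S),
        U (ℕ × V) {W | TT Kc s A (n + 1) W ∩ within S = F} =
          ((trees ⊥ (res (A (n + 1)) S)).card : ℝ≥0∞)⁻¹ := by
      intro k
      induction k using Nat.strong_induction_on with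
      | _ k ihk =>
        intro S hS hk hcl F hF
        rcases S.eq_empty_or_nonempty with rfl | ⟨a, ha⟩
        · rw [res_empty, trees_empty] at hF ⊢
          rw [Finset.mem_singleton] at hF
          subst hF
          have : {W : ℕ × V → I | TT Kc s A (n + 1) W ∩ within (∅ : Set V) =
              ((∅ : Finset (Sym2 V)) : Set (Sym2 V))} = univ := by
            ext W
            simp [within_empty]
          rw [this]
          simp
        · set C := comp (A (n + 1)) a with hCdef
          have hCS : C ⊆ S := comp_subset hcl ha
          have haC : a ∈ C := mem_comp_self _ a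
          have hC : C.Finite := hS.subset hCS
          have hclC : Closed (A (n + 1)) C := closed_comp _ a
          set S' := S \ C with hS'def
          have hS' : S'.Finite := hS.subset sdiff_subset
          have hclS' : Closed (A (n + 1)) S' := closed_diff hcl hclC
          have hlt : S'.ncard < k := by
            rw [← hk]
            apply Set.ncard_lt_ncard _ hS
            exact ⟨sdiff_subset, fun h => (h ha).2 haC⟩
          -- split of the edge set
          have hE : res (A (n + 1)) S = res (A (n + 1)) C ∪ res (A (n + 1)) S' := by
            ext e
            rw [Finset.mem_union, mem_res _ hS, mem_res _ hC, mem_res _ hS']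
            induction e with
            | _ x y =>
              simp only [mem_within]
              constructor
              · rintro ⟨h1, h2, h3⟩
                by_cases hx : x ∈ C
                · exact Or.inl ⟨h1, hx, hclC x y h1 hx⟩
                · refine Or.inr ⟨h1, ⟨h2, hx⟩, ⟨h3, fun hy => hx (hclC y x ?_ hy)⟩⟩
                  rwa [Sym2.eq_swap]
              · rintro (⟨h1, h2, h3⟩ | ⟨h1, h2, h3⟩)
                · exact ⟨h1, hCS h2, hCS h3⟩
                · exact ⟨h1, h2.1, h3.1⟩
          have hd : Disjoint C S' := disjoint_sdiff_right
          have hTU := J6.trees_union (res (A (n + 1)) C) (res (A (n + 1)) S') C S' hd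
            (by rw [coe_res _ hC]; exact inter_subset_right)
            (by rw [coe_res _ hS']; exact inter_subset_right)
          rw [hE] at hF
          obtain ⟨hF1, hF2, hF3⟩ := (hTU.1 F).1 hF
          have hev : {W | TT Kc s A (n + 1) W ∩ within S = (F : Set (Sym2 V))} =
              {W | TT Kc s A (n + 1) W ∩ within C = ((F ∩ res (A (n + 1)) C :
                Finset (Sym2 V)) : Set (Sym2 V))} ∩
              {W | TT Kc s A (n + 1) W ∩ within S' = ((F ∩ res (A (n + 1)) S' :
                Finset (Sym2 V)) : Set (Sym2 V))} := by
            ext W
            simp only [mem_ofPred_eq, mem_inter_iff, Finset.coe_inter, coe_res _ hC,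
              coe_res _ hS']
            have hsub : TT Kc s A (n + 1) W ⊆ A (n + 1) :=
              (Tseq_span good env _ (n + 1)).1
            have hFsub : (F : Set (Sym2 V)) ⊆ A (n + 1) ∩ within S := by
              rw [← coe_res _ hS, hE]
              exact Finset.coe_subset.2 hF1
            constructor
            · intro h
              constructor
              · ext e
                constructor
                · rintro ⟨h1, h2⟩
                  have : e ∈ (F : Set (Sym2 V)) := by
                    rw [← h]; exact ⟨h1, within_mono hCS h2⟩
                  exact ⟨this, hsub h1, h2⟩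
                · rintro ⟨h1, h2, h3⟩
                  rw [← h] at h1
                  exact ⟨h1.1, h3⟩
              · ext e
                constructor
                · rintro ⟨h1, h2⟩
                  have : e ∈ (F : Set (Sym2 V)) := by
                    rw [← h]; exact ⟨h1, within_mono sdiff_subset h2⟩
                  exact ⟨this, hsub h1, h2⟩
                · rintro ⟨h1, h2, h3⟩
                  rw [← h] at h1
                  exact ⟨h1.1, h3⟩
            · rintro ⟨h1, h2⟩
              have hsplit : ∀ e ∈ A (n + 1) ∩ within S, e ∈ within C ∨ e ∈ within S' := by
                intro e he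
                have : e ∈ res (A (n + 1)) S := (mem_res _ hS).2 he
                rw [hE, Finset.mem_union, mem_res _ hC, mem_res _ hS'] at this
                exact this.imp (fun h => h.2) fun h => h.2
              ext e
              constructor
              · rintro ⟨h3, h4⟩
                rcases hsplit e ⟨hsub h3, h4⟩ with h5 | h5
                · have : e ∈ TT Kc s A (n + 1) W ∩ within C := ⟨h3, h5⟩
                  rw [h1] at this
                  exact this.1
                · have : e ∈ TT Kc s A (n + 1) W ∩ within S' := ⟨h3, h5⟩
                  rw [h2] at this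
                  exact this.1
              · intro h3
                have h4 := hFsub h3
                rcases hsplit e h4 with h5 | h5
                · have : e ∈ TT Kc s A (n + 1) W ∩ within C := by
                    rw [h1]; exact ⟨h3, h4.1, h5⟩
                  exact ⟨this.1, h4.2⟩
                · have : e ∈ TT Kc s A (n + 1) W ∩ within S' := by
                    rw [h2]; exact ⟨h3, h4.1, h5⟩
                  exact ⟨this.1, h4.2⟩
          rw [hev, indep_of_dep {p : ℕ × V | p.2 ∈ C}, hE, hTU.2]
          · rw [law_component good env n hCdef (ih C hC (hclC.anti (env.mono n))) _ hF2,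
              ihk _ hlt S' hS' rfl hclS' _ hF3]
            rw [Nat.cast_mul, ENNReal.mul_inv (Or.inr (ENNReal.natCast_ne_top _))
              (Or.inl (ENNReal.natCast_ne_top _))]
          · exact meas_TT_eq good _ _ _
          · exact meas_TT_eq good _ _ _
          · intro W W' h
            have := Tseq_congr (Kc := Kc) env (S := C) (fun n v => W (n, v))
              (fun n v => W' (n, v)) (n + 1) hclC fun k _ v hv => h (k, v) hv
            show Tseq Kc s A (fun n v => W (n, v)) (n + 1) ∩ within C = _ ↔
              Tseq Kc s A (fun n v => W' (n, v)) (n + 1) ∩ within C = _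
            rw [this]
          · intro W W' h
            have := Tseq_congr (Kc := Kc) env (S := S') (fun n v => W (n, v))
              (fun n v => W' (n, v)) (n + 1) hclS' fun k _ v hv => h (k, v) hv.2
            show Tseq Kc s A (fun n v => W (n, v)) (n + 1) ∩ within S' = _ ↔
              Tseq Kc s A (fun n v => W' (n, v)) (n + 1) ∩ within S' = _
            rw [this]
    intro S hS hcl F hF
    exact main S.ncard S hS rfl hcl F hF

end Pool.Agent.TH968.UST
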