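import Pool.Agent.TH968.UST.Defs

/-!
# Definitions used in the final statement (besides those of `Defs`)
-/

namespace Pool.Agent.TH968.UST

open MeasureTheory Filter Topology
open scoped ENNReal

/-- The random rooted graph `(G, ρ)` is unimodular: the mass transport principle
`E ∑ₓ f(G,ρ,x) = E ∑ₓ f(G,x,ρ)` holds for every non-negative measurable `f` that is invariant
under relabelling of the vertices. -/
def Unimodular {V Ω : Type*} [MeasurableSpace Ω] (P : Measure Ω) (G : Ω → SimpleGraph V)
    (ρ : Ω → V) : Prop :=
  ∀ f : SimpleGraph V → V → V → ℝ≥0∞, (∀ x y, Measurable fun H => f H x y) →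
    (∀ (γ : Equiv.Perm V) (H : SimpleGraph V) (x y : V), f (H.map γ) (γ x) (γ y) = f H x y) →
    ∫⁻ ω, ∑' x, f (G ω) (ρ ω) x ∂P = ∫⁻ ω, ∑' x, f (G ω) x (ρ ω) ∂P

/-- `μ` is the law of the wired uniform spanning forest of `G`: for all finite sets `F`, `A` of
pairs, the probability of `T ∩ F = A` under `μ` is the limit, over the finite vertex sets `B`
directed by inclusion (hence along every exhaustion), of the same probability for the uniform
spanning tree of the graph obtained from `G` by identifying all vertices outside `B`. -/
def IsWUSF {V : Type*} (G : SimpleGraph V) (μ : Measure (Set (Sym2 V))) : Prop :=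
  IsProbabilityMeasure μ ∧ ∀ F A : Finset (Sym2 V),
    Tendsto (fun B : Finset V => ustProb (wired B) (touch G B) (F : Set (Sym2 V)) A) atTop
      (𝓝 (μ {T | T ∩ F = A}).toReal)

end Pool.Agent.TH968.UST
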