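import Pool.Agent.TH968.UST.Field
import Pool.Agent.TH968.UST.Statement
import Pool.Agent.TH968.UST.J9

/-!
# Mass transport
-/

namespace Pool.Agent.TH968.UST

open MeasureTheory Set Filter Topology
open scoped ENNReal unitInterval

variable {V : Type*}

/-- Action of a permutation of the vertices on the label field. -/
def permX (γ : Equiv.Perm V) (X : V × Knd → I) : V × Knd → I := fun p => X (γ.symm p.1, p.2)

theorem permX_map (γ : Equiv.Perm V) :
    Measure.map (permX γ) (U (V × Knd)) = U (V × Knd) :=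
  map_perm (Equiv.prodCongr γ.symm (Equiv.refl Knd))

theorem measurable_permX (γ : Equiv.Perm V) : Measurable (permX (V := V) γ) := by
  unfold permX; fun_prop

/-- A property of labelled graphs at a vertex, measurable and invariant under relabelling. -/
structure Inv (Q : SimpleGraph V → (V × Knd → I) → V → Prop) : Prop where
  meas : ∀ v, MeasurableSet {p : SimpleGraph V × (V × Knd → I) | Q p.1 p.2 v}
  inv : ∀ (γ : Equiv.Perm V) (H : SimpleGraph V) (X : V × Knd → I) (v : V),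
    Q (H.map γ) (permX γ X) (γ v) ↔ Q H X v

theorem Inv.meas_sec {Q : SimpleGraph V → (V × Knd → I) → V → Prop} (hQ : Inv Q)
    (H : SimpleGraph V) (v : V) : MeasurableSet {X | Q H X v} :=
  (measurable_const.prodMk measurable_id : Measurable fun X : V × Knd → I => (H, X)) (hQ.meas v)

theorem Inv.prob_inv {Q : SimpleGraph V → (V × Knd → I) → V → Prop} (hQ : Inv Q)
    (γ : Equiv.Perm V) (H : SimpleGraph V) (v : V) :
    U (V × Knd) {X | Q (H.map γ) X (γ v)} = U (V × Knd) {X | Q H X v} := by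
  conv_lhs => rw [← permX_map γ]
  rw [Measure.map_apply (measurable_permX γ) (hQ.meas_sec _ _)]
  congr 1
  ext X
  exact hQ.inv γ H X v

theorem Inv.meas_prob {Q : SimpleGraph V → (V × Knd → I) → V → Prop} (hQ : Inv Q) (v : V) :
    Measurable fun H : SimpleGraph V => U (V × Knd) {X | Q H X v} :=
  measurable_measure_prodMk_left (hQ.meas v)

/-- Everything shows at the root. -/
theorem shows_at_root [Countable V] {Ω : Type*} [MeasurableSpace Ω] (P : Measure Ω)
    (G : Ω → SimpleGraph V) (hG : Measurable G) (ρ : Ω → V)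
    (hρ : ∀ v, MeasurableSet {ω | ρ ω = v})
    (uni : Unimodular P G ρ) (Q : SimpleGraph V → (V × Knd → I) → V → Prop) (hQ : Inv Q)
    (h0 : ∀ᵐ ω ∂P, U (V × Knd) {X | Q (G ω) X (ρ ω)} = 0) :
    ∀ᵐ ω ∂P, ∀ v, U (V × Knd) {X | Q (G ω) X v} = 0 := by
  have h := uni (fun H _ y => U (V × Knd) {X | Q H X y}) (fun x y => hQ.meas_prob y)
    (fun γ H x y => hQ.prob_inv γ H y)
  have h1 : ∫⁻ ω, ∑' _x : V, U (V × Knd) {X | Q (G ω) X (ρ ω)} ∂P = 0 := by
    rw [lintegral_eq_zero_iff']
    · filter_upwards [h0] with ω hω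
      simp [hω]
    · have hm : Measurable fun ω => U (V × Knd) {X | Q (G ω) X (ρ ω)} := by
        intro S hS
        have : (fun ω => U (V × Knd) {X | Q (G ω) X (ρ ω)}) ⁻¹' S =
            ⋃ v, ({ω | ρ ω = v} ∩ (fun ω => U (V × Knd) {X | Q (G ω) X v}) ⁻¹' S) := by
          ext ω
          simp
        rw [this]
        exact MeasurableSet.iUnion fun v =>
          (hρ v).inter (((hQ.meas_prob v).comp hG) hS)
      exact (Measurable.tsum fun _ => hm).aemeasurable
  rw [h1] at h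
  have hm2 : ∀ v, Measurable fun ω => U (V × Knd) {X | Q (G ω) X v} := fun v =>
    (hQ.meas_prob v).comp hG
  rw [lintegral_eq_zero_iff (Measurable.tsum hm2)] at h
  filter_upwards [h] with ω hω v
  exact ENNReal.tsum_eq_zero.1 hω v

/-- Random partition of the vertices, measurable and invariant. -/
structure InvPart (D : SimpleGraph V → (V × Knd → I) → V → Set V) : Prop where
  meas : ∀ x v, MeasurableSet {p : SimpleGraph V × (V × Knd → I) | x ∈ D p.1 p.2 v}
  inv : ∀ (γ : Equiv.Perm V) (H : SimpleGraph V) (X : V × Knd → I) (v : V),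
    D (H.map γ) (permX γ X) (γ v) = γ '' D H X v

open Classical in
/-- Mass sent from `x` to `y`. -/
noncomputable def sent (Q : SimpleGraph V → (V × Knd → I) → V → Prop)
    (D : SimpleGraph V → (V × Knd → I) → V → Set V) (H : SimpleGraph V) (X : V × Knd → I)
    (x y : V) : ℝ≥0∞ :=
  if Q H X x ∧ y ∈ D H X x then ((D H X x).ncard : ℝ≥0∞)⁻¹ else 0

theorem meas_sent [Countable V] {Q : SimpleGraph V → (V × Knd → I) → V → Prop}
    {D : SimpleGraph V → (V × Knd → I) → V → Set V} (hQ : Inv Q) (hD : InvPart D) (x y : V) :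
    Measurable fun p : SimpleGraph V × (V × Knd → I) => sent Q D p.1 p.2 x y := by
  unfold sent
  refine Measurable.ite ((hQ.meas x).inter (hD.meas y x)) ?_ measurable_const
  have h1 : Measurable fun p : SimpleGraph V × (V × Knd → I) => (D p.1 p.2 x).ncard :=
    J9.meas_ncard (fun p : SimpleGraph V × (V × Knd → I) => D p.1 p.2 x) fun z => hD.meas z x
  exact ((measurable_from_nat (f := fun n : ℕ => (n : ℝ≥0∞))).comp h1).inv

theorem meas_sent_sec [Countable V] {Q : SimpleGraph V → (V × Knd → I) → V → Prop}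
    {D : SimpleGraph V → (V × Knd → I) → V → Set V} (hQ : Inv Q) (hD : InvPart D)
    (H : SimpleGraph V) (x y : V) :
    Measurable fun X : V × Knd → I => sent Q D H X x y :=
  (meas_sent hQ hD x y).comp
    (measurable_const.prodMk measurable_id : Measurable fun X : V × Knd → I => (H, X))

theorem tsum_ite_mem {S : Set V} (hS : S.Finite) (c : ℝ≥0∞) [∀ x, Decidable (x ∈ S)] :
    ∑' x, (if x ∈ S then c else 0) = S.ncard * c := by
  classical
  rw [tsum_eq_sum (s := hS.toFinset)]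
  · rw [Finset.sum_congr rfl (g := fun _ => c), Finset.sum_const, nsmul_eq_mul,
      Set.ncard_eq_toFinset_card _ hS]
    intro x hx
    rw [if_pos (hS.mem_toFinset.1 hx)]
  · intro x hx
    rw [if_neg fun h => hx (hS.mem_toFinset.2 h)]

/-- Averaging over the cells of a finite partition. -/
theorem mtp_average [Countable V] {Ω : Type*} [MeasurableSpace Ω] (P : Measure Ω)
    (G : Ω → SimpleGraph V) (ρ : Ω → V)
    (uni : Unimodular P G ρ) (Q : SimpleGraph V → (V × Knd → I) → V → Prop) (hQ : Inv Q)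
    (D : SimpleGraph V → (V × Knd → I) → V → Set V) (hD : InvPart D)
    (hfin : ∀ᵐ ω ∂P, ∀ X v, (D (G ω) X v).Finite ∧ v ∈ D (G ω) X v ∧
      ∀ x ∈ D (G ω) X v, D (G ω) X x = D (G ω) X v) :
    ∫⁻ ω, U (V × Knd) {X | Q (G ω) X (ρ ω)} ∂P =
      ∫⁻ ω, ∫⁻ X, (((D (G ω) X (ρ ω) ∩ {x | Q (G ω) X x}).ncard : ℝ≥0∞) *
        ((D (G ω) X (ρ ω)).ncard : ℝ≥0∞)⁻¹) ∂(U (V × Knd)) ∂P := by
  classical
  have hinv : ∀ (γ : Equiv.Perm V) (H : SimpleGraph V) (X : V × Knd → I) (x y : V),
      sent Q D (H.map γ) (permX γ X) (γ x) (γ y) = sent Q D H X x y := by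
    intro γ H X x y
    unfold sent
    rw [hQ.inv, hD.inv, Set.ncard_image_of_injective _ γ.injective]
    have : (γ y ∈ γ '' D H X x) ↔ y ∈ D H X x := γ.injective.mem_set_image
    simp only [this]
  have h := uni (fun H x y => ∫⁻ X, sent Q D H X x y ∂(U (V × Knd))) ?_ ?_
  · -- rewrite both sides
    have hL : ∀ᵐ ω ∂P, ∑' x, ∫⁻ X, sent Q D (G ω) X (ρ ω) x ∂(U (V × Knd)) =
        U (V × Knd) {X | Q (G ω) X (ρ ω)} := by
      filter_upwards [hfin] with ω hω
      rw [← lintegral_tsum fun y => (meas_sent_sec hQ hD (G ω) (ρ ω) y).aemeasurable]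
      rw [← lintegral_indicator_one (hQ.meas_sec (G ω) (ρ ω))]
      refine lintegral_congr fun X => ?_
      unfold sent
      by_cases hq : Q (G ω) X (ρ ω)
      · rw [Set.indicator_of_mem (show X ∈ {X | Q (G ω) X (ρ ω)} from hq)]
        simp only [hq, true_and]
        rw [tsum_ite_mem (hω X (ρ ω)).1]
        have hpos : 0 < (D (G ω) X (ρ ω)).ncard :=
          (Set.ncard_pos (hω X (ρ ω)).1).2 ⟨_, (hω X (ρ ω)).2.1⟩
        exact ENNReal.mul_inv_cancel (by exact_mod_cast hpos.ne') (ENNReal.natCast_ne_top _)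
      · rw [Set.indicator_of_notMem (show X ∉ {X | Q (G ω) X (ρ ω)} from hq)]
        simp [hq]
    have hR : ∀ᵐ ω ∂P, ∑' x, ∫⁻ X, sent Q D (G ω) X x (ρ ω) ∂(U (V × Knd)) =
        ∫⁻ X, (((D (G ω) X (ρ ω) ∩ {x | Q (G ω) X x}).ncard : ℝ≥0∞) *
        ((D (G ω) X (ρ ω)).ncard : ℝ≥0∞)⁻¹) ∂(U (V × Knd)) := by
      filter_upwards [hfin] with ω hω
      rw [← lintegral_tsum fun y => (meas_sent_sec hQ hD (G ω) y (ρ ω)).aemeasurable]
      refine lintegral_congr fun X => ?_
      have hsymm : ∀ x y, y ∈ D (G ω) X x ↔ x ∈ D (G ω) X y := by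
        intro x y
        constructor
        · intro h
          rw [(hω X x).2.2 y h]; exact (hω X x).2.1
        · intro h
          rw [(hω X y).2.2 x h]; exact (hω X y).2.1
      rw [← tsum_ite_mem ((hω X (ρ ω)).1.subset inter_subset_left)]
      refine tsum_congr fun x => ?_
      unfold sent
      by_cases hx : x ∈ D (G ω) X (ρ ω)
      · have h1 : D (G ω) X x = D (G ω) X (ρ ω) := (hω X (ρ ω)).2.2 x hx
        have h2 : ρ ω ∈ D (G ω) X x := (hsymm _ _).2 hx
        by_cases hq : Q (G ω) X x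
        · rw [if_pos ⟨hq, h2⟩, if_pos ⟨hx, hq⟩, h1]
        · rw [if_neg fun h => hq h.1, if_neg fun h => hq h.2]
      · rw [if_neg fun h => hx ((hsymm _ _).1 h.2), if_neg fun h => hx h.1]
    rw [lintegral_congr_ae hL, lintegral_congr_ae hR] at h
    exact h
  · intro x y
    exact (meas_sent hQ hD x y).lintegral_prod_right'
  · intro γ H x y
    conv_lhs => rw [← permX_map γ]
    rw [lintegral_map (meas_sent_sec hQ hD _ _ _) (measurable_permX γ)]
    exact lintegral_congr fun X => hinv γ H X x y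

/-- Comparison of two events cell by cell. -/
theorem mtp_compare [Countable V] {Ω : Type*} [MeasurableSpace Ω] (P : Measure Ω)
    (G : Ω → SimpleGraph V) (ρ : Ω → V)
    (uni : Unimodular P G ρ) (Q₁ Q₂ : SimpleGraph V → (V × Knd → I) → V → Prop) (hQ₁ : Inv Q₁)
    (hQ₂ : Inv Q₂)
    (D : SimpleGraph V → (V × Knd → I) → V → Set V) (hD : InvPart D)
    (hfin : ∀ᵐ ω ∂P, ∀ X v, (D (G ω) X v).Finite ∧ v ∈ D (G ω) X v ∧
      ∀ x ∈ D (G ω) X v, D (G ω) X x = D (G ω) X v)
    (hle : ∀ᵐ ω ∂P, ∀ᵐ X ∂(U (V × Knd)), ∀ v, (D (G ω) X v ∩ {x | Q₁ (G ω) X x}).ncard ≤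
      4 * (D (G ω) X v ∩ {x | Q₂ (G ω) X x}).ncard) :
    ∫⁻ ω, U (V × Knd) {X | Q₁ (G ω) X (ρ ω)} ∂P ≤
      4 * ∫⁻ ω, U (V × Knd) {X | Q₂ (G ω) X (ρ ω)} ∂P := by
  rw [mtp_average P G ρ uni Q₁ hQ₁ D hD hfin, mtp_average P G ρ uni Q₂ hQ₂ D hD hfin,
    ← lintegral_const_mul' _ _ (by norm_num)]
  refine lintegral_mono_ae ?_
  filter_upwards [hle] with ω hω
  rw [← lintegral_const_mul' _ _ (by norm_num)]
  refine lintegral_mono_ae ?_
  filter_upwards [hω] with X hX
  rw [← mul_assoc]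
  gcongr
  exact_mod_cast hX (ρ ω)

end Pool.Agent.TH968.UST
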