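import Pool.Agent.TH968.UST.Root

/-!
# Choice of the parameters
-/

namespace Pool.Agent.TH968.UST

open MeasureTheory Set Filter Topology
open scoped ENNReal unitInterval

variable {V : Type*}

/-- Roots exist almost surely on an infinite vertex set. -/
theorem rts_nonempty_ae [Infinite V] (m : ℕ) (ε : ℝ) (hε : 0 < ε) (hε1 : ε ≤ 1) :
    ∀ᵐ X ∂(U (V × Knd)), (rts m ε X).Nonempty := by
  classical
  rw [ae_iff]
  set c : ℝ≥0∞ := 1 - ENNReal.ofReal ε with hc
  have hc1 : c < 1 := by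
    rw [hc]
    exact ENNReal.sub_lt_self ENNReal.one_ne_top one_ne_zero (by simpa using hε)
  have hle : ∀ n : ℕ, U (V × Knd) {X : V × Knd → I | ¬ (rts m ε X).Nonempty} ≤ c ^ n := by
    intro n
    obtain ⟨s, hs⟩ := Infinite.exists_subset_card_eq V n
    set t : V × Knd → Set I := fun _ => {x : I | (x : ℝ) < ε}ᶜ with ht
    have hsub : {X : V × Knd → I | ¬ (rts m ε X).Nonempty} ⊆
        Set.pi (s.image (fun x => ((x, 1, m, 0) : V × Knd)) : Finset (V × Knd)) t := by
      intro X hX p hp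
      rw [Finset.mem_coe, Finset.mem_image] at hp
      obtain ⟨x, -, rfl⟩ := hp
      intro hx
      exact hX ⟨x, hx⟩
    refine (measure_mono hsub).trans ?_
    rw [Measure.infinitePi_pi _ (fun i _ => (meas_lt ε).compl), Finset.prod_image]
    · have hv : (volume : Measure I) ({x : I | (x : ℝ) < ε}ᶜ) = c := by
        rw [prob_compl_eq_one_sub (meas_lt ε), vol_lt_ge ε hε.le hε1]
      rw [Finset.prod_congr rfl (fun x _ => hv), Finset.prod_const, hs]
    · intro a _ b _ h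
      simpa using h
  exact le_antisymm (ge_of_tendsto' (ENNReal.tendsto_pow_atTop_nhds_zero_of_lt_one hc1) hle)
    zero_le

theorem tendsto_mass [Countable V] [Infinite V] (G : SimpleGraph V)
    (hh : ∀ o v, ⨆ n, hit G o n v = 1) (m : ℕ) (ε : ℝ) (hε : 0 < ε) (hε1 : ε ≤ 1) (v : V) :
    Tendsto (fun N => ∫⁻ X, (1 - mass G (rts m ε X) N v) ∂(U (V × Knd))) atTop (𝓝 0) := by
  have h := tendsto_lintegral_of_dominated_convergence (μ := U (V × Knd))
    (F := fun N X => 1 - mass G (rts m ε X) N v) (f := fun _ => 0) (bound := fun _ => 1)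
    (fun N => measurable_const.sub (meas_massX G m ε N v))
    (fun N => Eventually.of_forall fun X => tsub_le_self) (by simp) ?_
  · simpa using h
  · filter_upwards [rts_nonempty_ae m ε hε hε1] with X hX
    have h1 : Tendsto (fun N => mass G (rts m ε X) N v) atTop (𝓝 1) := by
      rw [← J8.iSup_mass G _ hX hh v]
      exact tendsto_atTop_iSup fun a b hab => J8.mass_mono G _ hab v
    have h2 := ENNReal.Tendsto.sub (tendsto_const_nhds (x := (1 : ℝ≥0∞))) h1
      (Or.inl ENNReal.one_ne_top)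
    simpa using h2

/-- Some edge at `v` is not kept at level `m`. -/
def star (G : SimpleGraph V) (m : ℕ) (ε : ℝ) (N K : ℕ) (v : V) : Set (V × Knd → I) :=
  {X | ∃ w, G.Adj v w ∧ X ∈ unk G m ε N K v w}

theorem star_le [Countable V] (G : SimpleGraph V) (hf : ∀ v, (G.neighborSet v).Finite) (m : ℕ)
    (ε : ℝ) (N K : ℕ) (v : V) :
    U (V × Knd) (star G m ε N K v) ≤
      ∑ w ∈ (hf v).toFinset, U (V × Knd) (unk G m ε N K v w) := by
  have : star G m ε N K v = ⋃ w ∈ (hf v).toFinset, unk G m ε N K v w := by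
    ext X; simp [star]
  rw [this]
  exact measure_biUnion_finset_le _ _

theorem tendsto_exp_zero : Tendsto (fun K : ℕ => ENNReal.ofReal (Real.exp (-(K : ℝ)))) atTop
    (𝓝 0) := by
  have h : Tendsto (fun K : ℕ => Real.exp (-(K : ℝ))) atTop (𝓝 0) :=
    Real.tendsto_exp_neg_atTop_nhds_zero.comp tendsto_natCast_atTop_atTop
  simpa using ENNReal.tendsto_ofReal h

/-- The nested limit of the probability that some edge at `v` is not kept vanishes. -/
theorem nested_limsup [Countable V] [Infinite V] (G : SimpleGraph V)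
    (hf : ∀ v, (G.neighborSet v).Finite)
    (hh : ∀ o v, ⨆ n, hit G o n v = 1) (hmono : ∀ o v, Monotone fun n => hit G o n v) (m : ℕ)
    (v : V) :
    limsup (fun K : ℕ => limsup (fun j : ℕ => limsup (fun N : ℕ =>
      U (V × Knd) (star G m (1 / ((j : ℝ) + 1)) N K v)) atTop) atTop) atTop = 0 := by
  have hle1 : ∀ o n v, hit G o n v ≤ 1 := fun o n v => by
    rw [← hh o v]; exact le_iSup (fun n => hit G o n v) n
  have hε : ∀ j : ℕ, 0 < 1 / ((j : ℝ) + 1) := fun j => by positivity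
  have hε1 : ∀ j : ℕ, 1 / ((j : ℝ) + 1) ≤ 1 := fun j => by
    rw [div_le_one (by positivity)]
    have : (0 : ℝ) ≤ j := Nat.cast_nonneg j
    linarith
  set D := (hf v).toFinset with hD
  -- inner limsup
  have h3 : ∀ K M j : ℕ, limsup (fun N : ℕ =>
      U (V × Knd) (star G m (1 / ((j : ℝ) + 1)) N K v)) atTop ≤
      ∑ w ∈ D, (((gball G M v).ncard : ℝ≥0∞) * ENNReal.ofReal (1 / ((j : ℝ) + 1)) +
        2 * K * (1 - hit G w M v) + ENNReal.ofReal (Real.exp (-(K : ℝ)))) := by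
    intro K M j
    have hlim : Tendsto (fun N : ℕ => ∑ w ∈ D,
        ((((gball G M v).ncard : ℝ≥0∞) * ENNReal.ofReal (1 / ((j : ℝ) + 1)) +
          2 * K * (1 - hit G w M v) + ENNReal.ofReal (Real.exp (-(K : ℝ)))) +
        (2 * K * ∫⁻ X, (1 - mass G (rts m (1 / ((j : ℝ) + 1)) X) (N - M) w) ∂(U (V × Knd)) +
          ∫⁻ X, (1 - mass G (rts m (1 / ((j : ℝ) + 1)) X) N v) ∂(U (V × Knd))))) atTop
        (𝓝 (∑ w ∈ D, ((((gball G M v).ncard : ℝ≥0∞) * ENNReal.ofReal (1 / ((j : ℝ) + 1)) +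
          2 * K * (1 - hit G w M v) + ENNReal.ofReal (Real.exp (-(K : ℝ)))) +
          (2 * K * 0 + 0)))) := by
      refine tendsto_finsetSum _ fun w _ => ?_
      refine tendsto_const_nhds.add (Tendsto.add ?_ ?_)
      · refine ENNReal.Tendsto.const_mul ?_ (Or.inr ?_)
        · exact (tendsto_mass G hh m _ (hε j) (hε1 j) w).comp (tendsto_sub_atTop_nat M)
        · exact ENNReal.mul_ne_top (by norm_num) (ENNReal.natCast_ne_top _)
      · exact tendsto_mass G hh m _ (hε j) (hε1 j) v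
    have hle : limsup (fun N : ℕ => U (V × Knd) (star G m (1 / ((j : ℝ) + 1)) N K v)) atTop ≤
        limsup (fun N : ℕ => ∑ w ∈ D,
        ((((gball G M v).ncard : ℝ≥0∞) * ENNReal.ofReal (1 / ((j : ℝ) + 1)) +
          2 * K * (1 - hit G w M v) + ENNReal.ofReal (Real.exp (-(K : ℝ)))) +
        (2 * K * ∫⁻ X, (1 - mass G (rts m (1 / ((j : ℝ) + 1)) X) (N - M) w) ∂(U (V × Knd)) +
          ∫⁻ X, (1 - mass G (rts m (1 / ((j : ℝ) + 1)) X) N v) ∂(U (V × Knd))))) atTop := by
      refine limsup_le_limsup ?_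
      filter_upwards [eventually_ge_atTop M] with N hN
      refine (star_le G hf m _ N K v).trans (Finset.sum_le_sum fun w _ => ?_)
      exact edge_bound G hf m _ (hε j).le M N K hN v w hle1
    refine hle.trans ?_
    rw [hlim.limsup_eq]
    simp
  -- middle limsup
  have h2 : ∀ K M : ℕ, limsup (fun j : ℕ => limsup (fun N : ℕ =>
      U (V × Knd) (star G m (1 / ((j : ℝ) + 1)) N K v)) atTop) atTop ≤
      ∑ w ∈ D, (2 * K * (1 - hit G w M v) + ENNReal.ofReal (Real.exp (-(K : ℝ)))) := by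
    intro K M
    refine (limsup_le_limsup (Eventually.of_forall fun j => h3 K M j)).trans ?_
    have hlim : Tendsto (fun j : ℕ =>
        ∑ w ∈ D, (((gball G M v).ncard : ℝ≥0∞) * ENNReal.ofReal (1 / ((j : ℝ) + 1)) +
        2 * K * (1 - hit G w M v) + ENNReal.ofReal (Real.exp (-(K : ℝ))))) atTop
        (𝓝 (∑ w ∈ D, (((gball G M v).ncard : ℝ≥0∞) * 0 +
        2 * K * (1 - hit G w M v) + ENNReal.ofReal (Real.exp (-(K : ℝ)))))) := by
      refine tendsto_finsetSum _ fun w _ => ?_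
      refine Tendsto.add (Tendsto.add ?_ tendsto_const_nhds) tendsto_const_nhds
      refine ENNReal.Tendsto.const_mul ?_ (Or.inr (ENNReal.natCast_ne_top _))
      have := ENNReal.tendsto_ofReal (tendsto_one_div_add_atTop_nhds_zero_nat (𝕜 := ℝ))
      simpa using this
    rw [hlim.limsup_eq]
    simp
  -- let M → ∞
  have h1 : ∀ K : ℕ, limsup (fun j : ℕ => limsup (fun N : ℕ =>
      U (V × Knd) (star G m (1 / ((j : ℝ) + 1)) N K v)) atTop) atTop ≤
      ∑ w ∈ D, ENNReal.ofReal (Real.exp (-(K : ℝ))) := by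
    intro K
    have hlim : Tendsto (fun M : ℕ => ∑ w ∈ D, (2 * (K : ℝ≥0∞) * (1 - hit G w M v) +
        ENNReal.ofReal (Real.exp (-(K : ℝ))))) atTop
        (𝓝 (∑ w ∈ D, (2 * (K : ℝ≥0∞) * 0 + ENNReal.ofReal (Real.exp (-(K : ℝ)))))) := by
      refine tendsto_finsetSum _ fun w _ => ?_
      refine Tendsto.add ?_ tendsto_const_nhds
      refine ENNReal.Tendsto.const_mul ?_ (Or.inr
        (ENNReal.mul_ne_top (by norm_num) (ENNReal.natCast_ne_top _)))
      have hT : Tendsto (fun M => hit G w M v) atTop (𝓝 1) := by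
        rw [← hh w v]
        exact tendsto_atTop_iSup (hmono w v)
      have := ENNReal.Tendsto.sub (tendsto_const_nhds (x := (1 : ℝ≥0∞))) hT
        (Or.inl ENNReal.one_ne_top)
      simpa using this
    have := ge_of_tendsto' hlim (h2 K)
    simpa using this
  refine le_antisymm ?_ zero_le
  refine (limsup_le_limsup (Eventually.of_forall h1)).trans ?_
  have hlim : Tendsto (fun K : ℕ => ∑ w ∈ D, ENNReal.ofReal (Real.exp (-(K : ℝ)))) atTop
      (𝓝 (∑ w ∈ D, 0)) := tendsto_finsetSum _ fun w _ => tendsto_exp_zero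
  rw [hlim.limsup_eq]
  simp

/-- Reverse Fatou, one step. -/
theorem exists_of_limsup {Ω : Type*} [MeasurableSpace Ω] (P : Measure Ω) [IsProbabilityMeasure P]
    (f : ℕ → Ω → ℝ≥0∞) (hf : ∀ n, Measurable (f n)) (h1 : ∀ n ω, f n ω ≤ 1) (δ : ℝ≥0∞)
    (h : ∫⁻ ω, limsup (fun n => f n ω) atTop ∂P < δ) : ∃ n, ∫⁻ ω, f n ω ∂P < δ := by
  have h2 := limsup_lintegral_le (μ := P) (f := f) (fun _ => 1) hf
    (fun n => Eventually.of_forall fun ω => h1 n ω) (by simp)
  exact (eventually_lt_of_limsup_lt (h2.trans_lt h)).exists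

/-- Evaluating a family of measurable functions at a random vertex. -/
theorem measurable_from_prod_of_root [Countable V] {Ω β : Type*} [MeasurableSpace Ω]
    [MeasurableSpace β] (ρ : Ω → V) (hρ : ∀ v, MeasurableSet {ω | ρ ω = v}) (f : Ω → V → β)
    (hf : ∀ v, Measurable fun ω => f ω v) : Measurable fun ω => f ω (ρ ω) := by
  intro S hS
  have : (fun ω => f ω (ρ ω)) ⁻¹' S = ⋃ v, ({ω | ρ ω = v} ∩ (fun ω => f ω v) ⁻¹' S) := by
    ext ω
    simp
  rw [this]
  exact MeasurableSet.iUnion fun v => (hρ v).inter (hf v hS)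

/-- Joint measurability of the star event. -/
theorem meas_star_joint [Countable V] {Ω : Type*} [MeasurableSpace Ω] (G : Ω → SimpleGraph V)
    (hG : ∀ a b, MeasurableSet {ω | (G ω).Adj a b}) (m : ℕ) (ε : ℝ) (N K : ℕ) (v : V) :
    MeasurableSet {p : Ω × (V × Knd → I) | p.2 ∈ star (G p.1) m ε N K v} := by
  have : {p : Ω × (V × Knd → I) | p.2 ∈ star (G p.1) m ε N K v} =
      ⋃ w : V, ({p : Ω × (V × Knd → I) | (G p.1).Adj v w} ∩
        {p : Ω × (V × Knd → I) |
          Kept (G p.1) (rts m ε p.2) N K (thrL p.2 m) v w}ᶜ) := by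
    ext p
    simp [star, unk]
  rw [this]
  refine MeasurableSet.iUnion fun w => MeasurableSet.inter ?_ (MeasurableSet.compl ?_)
  · exact measurable_fst (hG v w)
  · refine J9.meas_Kept (fun p : Ω × (V × Knd → I) => G p.1) (fun a b => measurable_fst (hG a b))
      (fun p => rts m ε p.2) (fun x => measurable_snd (meas_rts m ε x)) N K
      (fun p => thrL p.2 m) (fun k x => ?_) v w
    unfold thrL
    fun_prop

theorem meas_star_prob [Countable V] {Ω : Type*} [MeasurableSpace Ω] (G : Ω → SimpleGraph V)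
    (hG : ∀ a b, MeasurableSet {ω | (G ω).Adj a b}) (ρ : Ω → V)
    (hρ : ∀ v, MeasurableSet {ω | ρ ω = v}) (m : ℕ) (ε : ℝ) (N K : ℕ) :
    Measurable fun ω => U (V × Knd) (star (G ω) m ε N K (ρ ω)) := by
  have h1 : ∀ v, Measurable fun ω => U (V × Knd) (star (G ω) m ε N K v) := fun v =>
    measurable_measure_prodMk_left (meas_star_joint G hG m ε N K v)
  exact measurable_from_prod_of_root ρ hρ
    (fun ω v => U (V × Knd) (star (G ω) m ε N K v)) h1

/-- Good parameters exist at every level. -/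
theorem exists_param [Countable V] [Infinite V] {Ω : Type*} [MeasurableSpace Ω] (P : Measure Ω)
    [IsProbabilityMeasure P] (G : Ω → SimpleGraph V)
    (hG : ∀ a b, MeasurableSet {ω | (G ω).Adj a b}) (ρ : Ω → V)
    (hρ : ∀ v, MeasurableSet {ω | ρ ω = v})
    (hf : ∀ᵐ ω ∂P, ∀ v, ((G ω).neighborSet v).Finite)
    (hh : ∀ᵐ ω ∂P, ∀ o v, ⨆ n, hit (G ω) o n v = 1)
    (hmono : ∀ᵐ ω ∂P, ∀ o v, Monotone fun n => hit (G ω) o n v) (m : ℕ) (δ : ℝ≥0∞)
    (hδ : 0 < δ) :
    ∃ (ε : ℝ) (N K : ℕ), 0 < ε ∧ ∫⁻ ω, U (V × Knd) (star (G ω) m ε N K (ρ ω)) ∂P < δ := by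
  have hmeas := fun (K j N : ℕ) =>
    meas_star_prob G hG ρ hρ m (1 / ((j : ℝ) + 1)) N K
  have h0 : ∫⁻ ω, limsup (fun K : ℕ => limsup (fun j : ℕ => limsup (fun N : ℕ =>
      U (V × Knd) (star (G ω) m (1 / ((j : ℝ) + 1)) N K (ρ ω))) atTop) atTop) atTop ∂P = 0 := by
    rw [lintegral_eq_zero_iff (.limsup fun K => .limsup fun j => .limsup fun N => hmeas K j N)]
    filter_upwards [hf, hh, hmono] with ω h1 h2 h3
    exact nested_limsup (G ω) h1 h2 h3 m (ρ ω)
  have hle : ∀ K j N ω, U (V × Knd) (star (G ω) m (1 / ((j : ℝ) + 1)) N K (ρ ω)) ≤ 1 :=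
    fun _ _ _ _ => prob_le_one
  have hle2 : ∀ (f : ℕ → ℝ≥0∞), (∀ n, f n ≤ 1) → limsup f atTop ≤ 1 := fun f h => by
    refine (limsup_le_limsup (Eventually.of_forall h)).trans ?_
    simp
  obtain ⟨K, hK⟩ := exists_of_limsup P _
    (fun K => .limsup fun j => .limsup fun N => hmeas K j N)
    (fun K ω => hle2 _ fun j => hle2 _ fun N => hle K j N ω) δ (by rw [h0]; exact hδ)
  obtain ⟨j, hj⟩ := exists_of_limsup P _ (fun j => .limsup fun N => hmeas K j N)
    (fun j ω => hle2 _ fun N => hle K j N ω) δ hK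
  obtain ⟨N, hN⟩ := exists_of_limsup P _ (fun N => hmeas K j N) (fun N ω => hle K j N ω) δ hj
  exact ⟨1 / ((j : ℝ) + 1), N, K, by positivity, hN⟩

end Pool.Agent.TH968.UST
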