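import Pool.Agent.TH968.UST.Law3
import Pool.Agent.TH968.UST.MTP
import Pool.Agent.TH968.UST.Param
import Pool.Agent.TH968.UST.J3
import Pool.Agent.TH968.UST.J10

/-!
# The construction on labelled graphs: basic facts
-/

namespace Pool.Agent.TH968.UST

open MeasureTheory Set Filter Topology
open scoped ENNReal unitInterval

variable {V : Type*}

/-- Parameters of the levels. -/
structure Prm where
  ε : ℕ → ℝ
  N : ℕ → ℕ
  K : ℕ → ℕ

/-- The edge sets `A_n`. -/
def AG (q : Prm) (H : SimpleGraph V) (X : V × Knd → I) : ℕ → Set (Sym2 V) :=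
  Aseq H q.ε q.N q.K (rootL X) (thrL X)

/-- The forests `T_n`. -/
def TG (Kc : KcT) (q : Prm) (H : SimpleGraph V) (X : V × Knd → I) : ℕ → Set (Sym2 V) :=
  Tseq Kc (ordL X) (AG q H X) (wL X)

theorem Kept_symm {G : SimpleGraph V} {R : Set V} {N K : ℕ} {θ : ℕ → V → I} {a b : V}
    (h : Kept G R N K θ a b) : Kept G R N K θ b a := by
  obtain ⟨⟨k, hk, r, hr⟩, h2⟩ := h
  exact ⟨⟨k, hk, r, (h2 k hk r).1 hr⟩, fun k hk r => (h2 k hk r).symm⟩

theorem mem_AG_succ {q : Prm} {H : SimpleGraph V} {X : V × Knd → I} {n : ℕ} {a b : V} :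
    s(a, b) ∈ AG q H X (n + 1) ↔ H.Adj a b ∧ (Finite V ∨ ∀ m ≥ n,
      Kept H (rts m (q.ε m) X) (q.N m) (q.K m) (thrL X m) a b) := by
  constructor
  · rintro ⟨a', b', hab, hadj, h⟩
    rcases Sym2.eq_iff.1 hab with ⟨h1, h2⟩ | ⟨h1, h2⟩
    · subst h1; subst h2
      exact ⟨hadj, h⟩
    · subst h1; subst h2
      exact ⟨hadj.symm, h.imp id fun h m hm => Kept_symm (h m hm)⟩
  · rintro ⟨h1, h2⟩
    exact ⟨a, b, rfl, h1, h2⟩

theorem AG_zero (q : Prm) (H : SimpleGraph V) (X : V × Knd → I) : AG q H X 0 = ∅ := rfl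

theorem AG_mono (q : Prm) (H : SimpleGraph V) (X : V × Knd → I) (n : ℕ) :
    AG q H X n ⊆ AG q H X (n + 1) := by
  cases n with
  | zero => rw [AG_zero]; exact empty_subset _
  | succ n =>
    intro e
    induction e with
    | _ a b =>
      rw [mem_AG_succ, mem_AG_succ]
      exact fun h => ⟨h.1, h.2.imp id fun h m hm => h m (by omega)⟩

theorem AG_sub (q : Prm) (H : SimpleGraph V) (X : V × Knd → I) (n : ℕ) :
    AG q H X n ⊆ H.edgeSet := by
  cases n with
  | zero => rw [AG_zero]; exact empty_subset _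
  | succ n =>
    intro e
    induction e with
    | _ a b =>
      rw [mem_AG_succ]
      exact fun h => h.1

theorem AG_fin (q : Prm) (H : SimpleGraph V) (hf : ∀ v, (H.neighborSet v).Finite)
    (X : V × Knd → I) (n : ℕ) (a : V) : (comp (AG q H X n) a).Finite := by
  rcases finite_or_infinite V with hV | hV
  · exact Set.toFinite _
  · cases n with
    | zero =>
      rw [AG_zero]
      have : comp (∅ : Set (Sym2 V)) a ⊆ {a} :=
        comp_subset (fun _ _ h => h.elim) (mem_singleton a)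
      exact (finite_singleton a).subset this
    | succ n =>
      refine J8.kept_comp_finite H hf (rts n (q.ε n) X) (q.N n) (q.K n) (thrL X n) _ ?_ a
      intro a b h
      rw [mem_AG_succ] at h
      refine ⟨h.1, ?_⟩
      rcases h.2 with h2 | h2
      · exact absurd h2 (not_finite_iff_infinite.2 hV)
      · exact h2 n le_rfl

theorem env_AG (q : Prm) (H : SimpleGraph V) (hf : ∀ v, (H.neighborSet v).Finite)
    (X : V × Knd → I) (hX : Function.Injective (ordL X)) : Env (ordL X) (AG q H X) :=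
  ⟨hX, AG_zero q H X, AG_mono q H X, AG_fin q H hf X⟩

/-! ### Equivariance -/

theorem mem_map_iff (γ : Equiv.Perm V) (A : Set (Sym2 V)) (a b : V) :
    s(γ a, γ b) ∈ Sym2.map γ '' A ↔ s(a, b) ∈ A := by
  have h : s(γ a, γ b) = Sym2.map γ s(a, b) := rfl
  rw [h]
  exact (Sym2.map.injective γ.injective).mem_set_image

theorem AG_map (γ : Equiv.Perm V) (q : Prm) (H : SimpleGraph V) (X : V × Knd → I) (n : ℕ) :
    AG q (H.map γ) (permX γ X) n = Sym2.map γ '' AG q H X n :=
  J10.Aseq_map γ H q.ε q.N q.K (rootL X) (thrL X) n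

theorem TG_map (γ : Equiv.Perm V) (Kc : KcT) (q : Prm) (H : SimpleGraph V) (X : V × Knd → I)
    (n : ℕ) : TG Kc q (H.map γ) (permX γ X) n = Sym2.map γ '' TG Kc q H X n := by
  have h := J10.Tseq_map γ Kc (ordL X) (AG q H X) (wL X) n
  refine Eq.trans ?_ h
  have h2 : AG q (H.map γ) (permX γ X) = fun n => Sym2.map γ '' AG q H X n :=
    funext fun n => AG_map γ q H X n
  unfold TG
  rw [h2]
  rfl

/-! ### Measurability -/

section meas

variable [Countable V]

omit [Countable V] in
theorem meas_adj (a b : V) :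
    MeasurableSet {p : SimpleGraph V × (V × Knd → I) | p.1.Adj a b} := by
  have h : Measurable (fun p : SimpleGraph V × (V × Knd → I) => p.1) := measurable_fst
  have h2 := SimpleGraph.measurable_iff_adj.1 h a b
  exact measurableSet_setOfPred.2 h2

theorem meas_AG (q : Prm) (n : ℕ) (e : Sym2 V) :
    MeasurableSet {p : SimpleGraph V × (V × Knd → I) | e ∈ AG q p.1 p.2 n} :=
  J9.meas_Aseq (fun p : SimpleGraph V × (V × Knd → I) => p.1) meas_adj q.ε q.N q.K
    (fun p => rootL p.2) (fun m v => by unfold rootL; fun_prop) (fun p => thrL p.2)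
    (fun m k v => by unfold thrL; fun_prop) n e

theorem meas_TG {Kc : KcT} (good : GoodKc Kc) (q : Prm) (n : ℕ) (e : Sym2 V) :
    MeasurableSet {p : SimpleGraph V × (V × Knd → I) | e ∈ TG Kc q p.1 p.2 n} :=
  J9.meas_Tseq Kc good.meas (fun p : SimpleGraph V × (V × Knd → I) => ordL p.2)
    (fun v => by unfold ordL; fun_prop) (fun p => AG q p.1 p.2) (meas_AG q)
    (fun p => wL p.2) (fun n v => by unfold wL; fun_prop) n e

end meas

/-- `v` is an endpoint of an edge of `A_{n+1} \ A_n`. -/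
def srcQ (q : Prm) (n : ℕ) (H : SimpleGraph V) (X : V × Knd → I) (v : V) : Prop :=
  ∃ w, s(v, w) ∈ AG q H X (n + 1) ∧ s(v, w) ∉ AG q H X n

/-- `v` is an endpoint of an edge where `T_{n+1}` and `T_n` differ. -/
def tchQ (Kc : KcT) (q : Prm) (n : ℕ) (H : SimpleGraph V) (X : V × Knd → I) (v : V) : Prop :=
  ∃ w, ¬ (s(v, w) ∈ TG Kc q H X (n + 1) ↔ s(v, w) ∈ TG Kc q H X n)

theorem inv_srcQ [Countable V] (q : Prm) (n : ℕ) : Inv (srcQ (V := V) q n) := by
  constructor
  · intro v
    have : {p : SimpleGraph V × (V × Knd → I) | srcQ q n p.1 p.2 v} =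
        ⋃ w, ({p : SimpleGraph V × (V × Knd → I) | s(v, w) ∈ AG q p.1 p.2 (n + 1)} ∩
          {p : SimpleGraph V × (V × Knd → I) | s(v, w) ∈ AG q p.1 p.2 n}ᶜ) := by
      ext p; simp [srcQ]
    rw [this]
    exact MeasurableSet.iUnion fun w => (meas_AG q _ _).inter (meas_AG q _ _).compl
  · intro γ H X v
    unfold srcQ
    rw [AG_map, AG_map]
    constructor
    · rintro ⟨w, h1, h2⟩
      refine ⟨γ.symm w, ?_, ?_⟩
      · rw [← mem_map_iff γ]; simpa using h1
      · rw [← mem_map_iff γ]; simpa using h2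
    · rintro ⟨w, h1, h2⟩
      exact ⟨γ w, (mem_map_iff γ _ _ _).2 h1, fun h => h2 ((mem_map_iff γ _ _ _).1 h)⟩

theorem inv_tchQ [Countable V] {Kc : KcT} (good : GoodKc Kc) (q : Prm) (n : ℕ) :
    Inv (tchQ (V := V) Kc q n) := by
  constructor
  · intro v
    have : {p : SimpleGraph V × (V × Knd → I) | tchQ Kc q n p.1 p.2 v} =
        ⋃ w, (({p : SimpleGraph V × (V × Knd → I) | s(v, w) ∈ TG Kc q p.1 p.2 (n + 1)} ∩
          {p : SimpleGraph V × (V × Knd → I) | s(v, w) ∈ TG Kc q p.1 p.2 n}ᶜ) ∪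
          ({p : SimpleGraph V × (V × Knd → I) | s(v, w) ∈ TG Kc q p.1 p.2 (n + 1)}ᶜ ∩
          {p : SimpleGraph V × (V × Knd → I) | s(v, w) ∈ TG Kc q p.1 p.2 n})) := by
      ext p
      simp only [tchQ, mem_ofPred_eq, mem_iUnion, mem_union, mem_inter_iff, mem_compl_iff]
      refine exists_congr fun w => ?_
      tauto
    rw [this]
    exact MeasurableSet.iUnion fun w => ((meas_TG good q _ _).inter (meas_TG good q _ _).compl).union
      ((meas_TG good q _ _).compl.inter (meas_TG good q _ _))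
  · intro γ H X v
    unfold tchQ
    rw [TG_map, TG_map]
    constructor
    · rintro ⟨w, h⟩
      obtain ⟨w, rfl⟩ := γ.surjective w
      rw [mem_map_iff, mem_map_iff] at h
      exact ⟨w, h⟩
    · rintro ⟨w, h⟩
      refine ⟨γ w, ?_⟩
      rw [mem_map_iff, mem_map_iff]
      exact h

theorem inv_comp [Countable V] (q : Prm) (n : ℕ) :
    InvPart (fun (H : SimpleGraph V) X v => comp (AG q H X n) v) := by
  constructor
  · intro x v
    exact J9.meas_comp (fun p : SimpleGraph V × (V × Knd → I) => AG q p.1 p.2 n) (meas_AG q n) v x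
  · intro γ H X v
    rw [AG_map, J10.comp_map]

/-- Cell by cell, at most four times as many vertices are touched as there are sources. -/
theorem tch_le [Countable V] {Kc : KcT} (good : GoodKc Kc) (q : Prm) (n : ℕ) (H : SimpleGraph V)
    (hf : ∀ v, (H.neighborSet v).Finite) (X : V × Knd → I) (hX : Function.Injective (ordL X))
    (v : V) :
    (comp (AG q H X (n + 1)) v ∩ {x | tchQ Kc q n H X x}).ncard ≤
      4 * (comp (AG q H X (n + 1)) v ∩ {x | srcQ q n H X x}).ncard := by
  classical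
  have env := env_AG q H hf X hX
  set C := comp (AG q H X (n + 1)) v with hCdef
  have hC : C.Finite := AG_fin q H hf X (n + 1) v
  have hclA' : Closed (AG q H X (n + 1)) C := closed_comp _ _
  have hclA : Closed (AG q H X n) C := hclA'.anti (AG_mono q H X n)
  have hspan' := Tseq_span good env (wL X) (n + 1)
  have hspan := Tseq_span good env (wL X) n
  have hmono := Tseq_mono good env (wL X) n
  have hY : (C ∩ {x | tchQ Kc q n H X x}).Finite := hC.subset inter_subset_left
  have hXf : (C ∩ {x | srcQ q n H X x}).Finite := hC.subset inter_subset_left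
  rw [Set.ncard_eq_toFinset_card _ hY, Set.ncard_eq_toFinset_card _ hXf]
  refine J3.symmDiff_bound (res (AG q H X n) C) (res (AG q H X (n + 1)) C)
    (res_mono (AG_mono q H X n) hC) (res (TG Kc q H X (n + 1)) C) (res (TG Kc q H X n) C)
    (res_mem_trees hspan' hC hclA') (res_mem_trees hspan hC hclA) ?_ _ ?_ _ ?_
  · intro e he
    rw [Finset.mem_inter, mem_res _ hC, mem_res _ hC] at he
    rw [mem_res _ hC]
    exact ⟨hmono ⟨he.1.1, he.2.1⟩, he.1.2⟩
  · intro e he he'
    rw [mem_res _ hC] at he he'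
    induction e with
    | _ a b =>
      have hw := mem_within.1 he.2
      have hne : s(a, b) ∉ AG q H X n := fun h => he' ⟨h, he.2⟩
      intro x hx
      rw [hXf.mem_toFinset]
      rcases Sym2.mem_iff.1 hx with rfl | rfl
      · exact ⟨hw.1, b, he.1, hne⟩
      · refine ⟨hw.2, a, ?_, ?_⟩
        · rw [Sym2.eq_swap]; exact he.1
        · rw [Sym2.eq_swap]; exact hne
  · intro x hx
    rw [hY.mem_toFinset] at hx
    obtain ⟨hxC, w, hw⟩ := hx
    refine ⟨s(x, w), ?_, Sym2.mem_mk_left _ _⟩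
    have hmem : s(x, w) ∈ TG Kc q H X (n + 1) ∨ s(x, w) ∈ TG Kc q H X n := by
      by_contra h
      push Not at h
      exact hw ⟨fun h' => absurd h' h.1, fun h' => absurd h' h.2⟩
    have hA' : s(x, w) ∈ AG q H X (n + 1) := by
      rcases hmem with h | h
      · exact hspan'.1 h
      · exact AG_mono q H X n (hspan.1 h)
    have hwC : w ∈ C := hclA' x w hA' hxC
    have hin : s(x, w) ∈ within C := mem_within.2 ⟨hxC, hwC⟩
    rw [Finset.mem_symmDiff, mem_res _ hC, mem_res _ hC]
    by_cases h1 : s(x, w) ∈ TG Kc q H X (n + 1)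
    · left
      exact ⟨⟨h1, hin⟩, fun h => hw ⟨fun _ => h.1, fun _ => h1⟩⟩
    · right
      have h2 := hmem.resolve_left h1
      exact ⟨⟨h2, hin⟩, fun h => h1 h.1⟩

end Pool.Agent.TH968.UST
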