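import Pool.Agent.TH968.UST.Main1

/-!
# Almost sure properties
-/

namespace Pool.Agent.TH968.UST

open MeasureTheory Set Filter Topology
open scoped ENNReal unitInterval

variable {V : Type*}

theorem Inv.meas_root [Countable V] {Q : SimpleGraph V → (V × Knd → I) → V → Prop} (hQ : Inv Q)
    {Ω : Type*} [MeasurableSpace Ω] (G : Ω → SimpleGraph V) (hG : Measurable G) (ρ : Ω → V)
    (hρ : ∀ v, MeasurableSet {ω | ρ ω = v}) :
    Measurable fun ω => U (V × Knd) {X | Q (G ω) X (ρ ω)} :=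
  measurable_from_prod_of_root ρ hρ (fun ω v => U (V × Knd) {X | Q (G ω) X v})
    fun v => (hQ.meas_prob v).comp hG

theorem Inv.frequently {Q : ℕ → SimpleGraph V → (V × Knd → I) → V → Prop}
    (h : ∀ n, Inv (Q n)) : Inv (fun H X v => ∃ᶠ n in atTop, Q n H X v) := by
  constructor
  · intro v
    have : {p : SimpleGraph V × (V × Knd → I) | ∃ᶠ n in atTop, Q n p.1 p.2 v} =
        ⋂ N : ℕ, ⋃ n : ℕ, ⋃ (_ : N ≤ n), {p | Q n p.1 p.2 v} := by
      ext p
      simp [frequently_atTop]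
    rw [this]
    exact MeasurableSet.iInter fun N => MeasurableSet.iUnion fun n => MeasurableSet.iUnion fun _ =>
      (h n).meas v
  · intro γ H X v
    simp only [(h _).inv γ H X v]

theorem inv_star [Countable V] (m : ℕ) (ε : ℝ) (N K : ℕ) :
    Inv (fun (H : SimpleGraph V) X v => X ∈ star H m ε N K v) := by
  constructor
  · intro v
    refine meas_star_joint (fun H : SimpleGraph V => H) (fun a b => ?_) m ε N K v
    have h2 := SimpleGraph.measurable_iff_adj.1 (measurable_id (α := SimpleGraph V)) a b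
    exact measurableSet_setOfPred.2 h2
  · intro γ H X v
    have hR : rts m ε (permX γ X) = γ '' rts m ε X := by
      ext x
      simp only [rts, rootL, permX, mem_ofPred_eq, mem_image]
      constructor
      · intro h
        exact ⟨γ.symm x, h, by simp⟩
      · rintro ⟨y, hy, rfl⟩
        simpa using hy
    have hK : ∀ a b, Kept (H.map γ) (rts m ε (permX γ X)) N K (thrL (permX γ X) m) (γ a) (γ b) ↔
        Kept H (rts m ε X) N K (thrL X m) a b := by
      intro a b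
      rw [hR]
      exact J10.Kept_map γ H (rts m ε X) N K (thrL X m) a b
    have hadj : ∀ a b, (H.map γ).Adj (γ a) (γ b) ↔ H.Adj a b := fun a b =>
      SimpleGraph.map_adj_apply (f := γ.toEmbedding)
    simp only [star, unk, mem_ofPred_eq]
    constructor
    · rintro ⟨w, h1, h2⟩
      obtain ⟨w, rfl⟩ := γ.surjective w
      exact ⟨w, (hadj _ _).1 h1, fun h => h2 ((hK _ _).2 h)⟩
    · rintro ⟨w, h1, h2⟩
      exact ⟨γ w, (hadj _ _).2 h1, fun h => h2 ((hK _ _).1 h)⟩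

/-- The star event with the parameters of level `m`. -/
def starQ (q : Prm) (m : ℕ) (H : SimpleGraph V) (X : V × Knd → I) (v : V) : Prop :=
  X ∈ star H m (q.ε m) (q.N m) (q.K m) v

theorem inv_starQ [Countable V] (q : Prm) (m : ℕ) : Inv (starQ (V := V) q m) :=
  inv_star m (q.ε m) (q.N m) (q.K m)

theorem srcQ_star [Infinite V] {q : Prm} {n : ℕ} {H : SimpleGraph V} {X : V × Knd → I} {v : V}
    (h : srcQ q (n + 1) H X v) : ∃ k, starQ q (n + k) H X v := by
  obtain ⟨w, h1, h2⟩ := h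
  rw [mem_AG_succ] at h1 h2
  have h3 : ¬ ∀ m ≥ n, Kept H (rts m (q.ε m) X) (q.N m) (q.K m) (thrL X m) v w := fun h =>
    h2 ⟨h1.1, Or.inr h⟩
  push Not at h3
  obtain ⟨m, hm, hK⟩ := h3
  obtain ⟨k, rfl⟩ := Nat.exists_eq_add_of_le hm
  exact ⟨k, w, h1.1, hK⟩

theorem srcQ_finite [Finite V] {q : Prm} {n : ℕ} {H : SimpleGraph V} {X : V × Knd → I} {v : V} :
    ¬ srcQ q (n + 1) H X v := by
  rintro ⟨w, h1, h2⟩
  rw [mem_AG_succ] at h1 h2
  exact h2 ⟨h1.1, Or.inl inferInstance⟩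

theorem sum_src [Countable V] {Ω : Type*} [MeasurableSpace Ω] (P : Measure Ω)
    [IsProbabilityMeasure P] (G : Ω → SimpleGraph V) (hG : Measurable G) (ρ : Ω → V)
    (hρ : ∀ v, MeasurableSet {ω | ρ ω = v}) (q : Prm)
    (hq : Infinite V → ∀ m, ∫⁻ ω, U (V × Knd) {X | starQ q m (G ω) X (ρ ω)} ∂P ≤ 2⁻¹ ^ m) :
    ∑' n, ∫⁻ ω, U (V × Knd) {X | srcQ q (n + 1) (G ω) X (ρ ω)} ∂P ≤ 4 := by
  rcases finite_or_infinite V with hV | hV
  · have : ∀ n, ∫⁻ ω, U (V × Knd) {X | srcQ q (n + 1) (G ω) X (ρ ω)} ∂P = 0 := by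
      intro n
      have : ∀ ω, {X | srcQ q (n + 1) (G ω) X (ρ ω)} = ∅ := by
        intro ω
        ext X
        simp only [mem_ofPred_eq, mem_empty_iff_false, iff_false]
        exact srcQ_finite
      simp [this]
    simp [this]
  · have hle : ∀ n, ∫⁻ ω, U (V × Knd) {X | srcQ q (n + 1) (G ω) X (ρ ω)} ∂P ≤
        ∑' k, (2⁻¹ : ℝ≥0∞) ^ n * 2⁻¹ ^ k := by
      intro n
      calc ∫⁻ ω, U (V × Knd) {X | srcQ q (n + 1) (G ω) X (ρ ω)} ∂P
          ≤ ∫⁻ ω, ∑' k, U (V × Knd) {X | starQ q (n + k) (G ω) X (ρ ω)} ∂P := by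
            refine lintegral_mono fun ω => ?_
            refine (measure_mono ?_).trans (measure_iUnion_le _)
            intro X hX
            rw [mem_iUnion]
            exact srcQ_star hX
        _ = ∑' k, ∫⁻ ω, U (V × Knd) {X | starQ q (n + k) (G ω) X (ρ ω)} ∂P :=
            lintegral_tsum fun k => ((inv_starQ q (n + k)).meas_root G hG ρ hρ).aemeasurable
        _ ≤ ∑' k, (2⁻¹ : ℝ≥0∞) ^ n * 2⁻¹ ^ k := by
            refine ENNReal.tsum_le_tsum fun k => ?_
            rw [← pow_add]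
            exact hq hV (n + k)
    refine (ENNReal.tsum_le_tsum hle).trans ?_
    simp_rw [ENNReal.tsum_mul_left, ENNReal.tsum_mul_right, ENNReal.tsum_geometric]
    rw [ENNReal.one_sub_inv_two, inv_inv]
    norm_num

/-- Borel–Cantelli for events at the root, then at every vertex. -/
theorem borel_cantelli [Countable V] {Ω : Type*} [MeasurableSpace Ω] (P : Measure Ω)
    (G : Ω → SimpleGraph V) (hG : Measurable G) (ρ : Ω → V)
    (hρ : ∀ v, MeasurableSet {ω | ρ ω = v}) (uni : Unimodular P G ρ)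
    (Q : ℕ → SimpleGraph V → (V × Knd → I) → V → Prop) (hQ : ∀ n, Inv (Q n))
    (hsum : ∑' n, ∫⁻ ω, U (V × Knd) {X | Q n (G ω) X (ρ ω)} ∂P ≠ ∞) :
    ∀ᵐ ω ∂P, ∀ᵐ X ∂(U (V × Knd)), ∀ v, ∀ᶠ n in atTop, ¬ Q n (G ω) X v := by
  have hm := fun n => (hQ n).meas_root G hG ρ hρ
  rw [← lintegral_tsum fun n => (hm n).aemeasurable] at hsum
  have h1 := ae_lt_top (Measurable.tsum hm) hsum
  have h2 : ∀ᵐ ω ∂P, U (V × Knd) {X | ∃ᶠ n in atTop, Q n (G ω) X (ρ ω)} = 0 := by
    filter_upwards [h1] with ω hω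
    have h3 := ae_eventually_notMem (μ := U (V × Knd))
      (s := fun n => {X | Q n (G ω) X (ρ ω)}) hω.ne
    rw [ae_iff] at h3
    exact h3
  have h3 := shows_at_root P G hG ρ hρ uni _ (Inv.frequently hQ) h2
  filter_upwards [h3] with ω hω
  rw [ae_all_iff]
  intro v
  exact ae_iff.2 (hω v)

/-- The almost sure properties of the construction. -/
theorem ae_props [Countable V] {Kc : KcT} (good : GoodKc Kc) {Ω : Type*} [MeasurableSpace Ω]
    (P : Measure Ω) [IsProbabilityMeasure P]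
    (G : Ω → SimpleGraph V) (hG : Measurable G) (ρ : Ω → V)
    (hρ : ∀ v, MeasurableSet {ω | ρ ω = v}) (uni : Unimodular P G ρ)
    (hf : ∀ᵐ ω ∂P, ∀ v, ((G ω).neighborSet v).Finite) (q : Prm)
    (hq : Infinite V → ∀ m, ∫⁻ ω, U (V × Knd) {X | starQ q m (G ω) X (ρ ω)} ∂P ≤ 2⁻¹ ^ m) :
    ∀ᵐ ω ∂P, ∀ᵐ X ∂(U (V × Knd)), Function.Injective (ordL X) ∧
      (∀ e ∈ (G ω).edgeSet, ∀ᶠ n in atTop, e ∈ AG q (G ω) X n) ∧
      ∀ v, ∀ᶠ n in atTop, ¬ tchQ Kc q (n + 1) (G ω) X v := by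
  -- touched vertices
  have hsrc := sum_src P G hG ρ hρ q hq
  have htch : ∀ n, ∫⁻ ω, U (V × Knd) {X | tchQ Kc q (n + 1) (G ω) X (ρ ω)} ∂P ≤
      4 * ∫⁻ ω, U (V × Knd) {X | srcQ q (n + 1) (G ω) X (ρ ω)} ∂P := by
    intro n
    refine mtp_compare P G ρ uni (tchQ Kc q (n + 1)) (srcQ q (n + 1)) (inv_tchQ good q _)
      (inv_srcQ q _) (fun H X v => comp (AG q H X (n + 1 + 1)) v) (inv_comp q _) ?_ ?_
    · filter_upwards [hf] with ω hω X v
      exact ⟨AG_fin q (G ω) hω X _ v, mem_comp_self _ _, fun x hx => comp_eq hx⟩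
    · filter_upwards [hf] with ω hω
      filter_upwards [ordL_injective_ae (V := V)] with X hX v
      exact tch_le good q (n + 1) (G ω) hω X hX v
  have hsum : ∑' n, ∫⁻ ω, U (V × Knd) {X | tchQ Kc q (n + 1) (G ω) X (ρ ω)} ∂P ≠ ∞ := by
    refine ne_top_of_le_ne_top ?_ (ENNReal.tsum_le_tsum htch)
    rw [ENNReal.tsum_mul_left]
    exact ENNReal.mul_ne_top (by norm_num) (ne_top_of_le_ne_top (by norm_num) hsrc)
  have h1 := borel_cantelli P G hG ρ hρ uni (fun n => tchQ Kc q (n + 1))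
    (fun n => inv_tchQ good q _) hsum
  -- kept edges
  have h2 : ∀ᵐ ω ∂P, ∀ᵐ X ∂(U (V × Knd)), ∀ e ∈ (G ω).edgeSet,
      ∀ᶠ n in atTop, e ∈ AG q (G ω) X n := by
    rcases finite_or_infinite V with hV | hV
    · refine Eventually.of_forall fun ω => Eventually.of_forall fun X e he => ?_
      filter_upwards [eventually_ge_atTop 1] with n hn
      obtain ⟨n, rfl⟩ := Nat.exists_eq_add_of_le' hn
      induction e with
      | _ a b =>
        rw [mem_AG_succ]
        exact ⟨he, Or.inl hV⟩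
    · have hs : ∑' m, ∫⁻ ω, U (V × Knd) {X | starQ q m (G ω) X (ρ ω)} ∂P ≠ ∞ := by
        refine ne_top_of_le_ne_top ?_ (ENNReal.tsum_le_tsum (hq hV))
        rw [ENNReal.tsum_geometric, ENNReal.one_sub_inv_two, inv_inv]
        norm_num
      have h3 := borel_cantelli P G hG ρ hρ uni (fun m => starQ q m) (inv_starQ q) hs
      filter_upwards [h3] with ω hω
      filter_upwards [hω] with X hX e he
      induction e with
      | _ a b =>
        obtain ⟨m0, hm0⟩ := eventually_atTop.1 (hX a)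
        filter_upwards [eventually_ge_atTop (m0 + 1)] with n hn
        obtain ⟨n, rfl⟩ := Nat.exists_eq_add_of_le' (le_trans (Nat.le_add_left 1 m0) hn)
        rw [mem_AG_succ]
        refine ⟨he, Or.inr fun m hm => ?_⟩
        by_contra hK
        exact hm0 m (by omega) ⟨b, he, hK⟩
  filter_upwards [h1, h2] with ω h1 h2
  filter_upwards [h1, h2, ordL_injective_ae (V := V)] with X h1 h2 h3
  exact ⟨h3, h2, h1⟩

end Pool.Agent.TH968.UST
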