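import Pool.Agent.TH968.UST.Main2
import Pool.Agent.TH365.J77

/-!
# The law of the limiting forest
-/

namespace Pool.Agent.TH968.UST

open MeasureTheory Set Filter Topology
open scoped ENNReal unitInterval

variable {V : Type*}

theorem ustProb_nonneg (r : Setoid V) (E F A : Set (Sym2 V)) : 0 ≤ ustProb r E F A := by
  unfold ustProb; positivity

theorem ustProb_eq_card [DecidableEq V] (r : Setoid V) (E F A : Finset (Sym2 V)) :
    ustProb r (E : Set (Sym2 V)) (F : Set (Sym2 V)) (A : Set (Sym2 V)) =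
      (((trees r E).filter (fun T => T ∩ F = A)).card : ℝ) / ((trees r E).card : ℝ) := by
  rw [Pool.Agent.TH365.J77.ustProb_eq]
  unfold Pool.Agent.TH365.J77.Ex
  congr 1
  rw [Finset.sum_ite, Finset.sum_const_zero, add_zero, Finset.sum_const, nsmul_eq_mul, mul_one]

/-- The probability of a cylinder event at time `n`, for a fixed environment. -/
theorem prob_TT [Countable V] {Kc : KcT} {s : V → I} {A : ℕ → Set (Sym2 V)} (good : GoodKc Kc)
    (env : Env s A) (n : ℕ) (S : Set V) (hS : S.Finite) (hcl : Closed (A n) S)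
    (F B : Finset (Sym2 V)) (hF : (F : Set (Sym2 V)) ⊆ within S) :
    U (ℕ × V) {W | TT Kc s A n W ∩ F = (B : Set (Sym2 V))} =
      ENNReal.ofReal (ustProb ⊥ (res (A n) S : Set (Sym2 V)) (F : Set (Sym2 V)) B) := by
  classical
  rw [ustProb_eq_card]
  set E := res (A n) S with hE
  have hpos : (0 : ℝ) < ((trees ⊥ E).card : ℝ) := by
    have h := res_mem_trees (Tseq_span good env (fun _ _ => 0) n) hS hcl
    exact_mod_cast Finset.card_pos.2 ⟨_, h⟩
  have hdec : {W | TT Kc s A n W ∩ F = (B : Set (Sym2 V))} =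
      ⋃ T ∈ (trees ⊥ E).filter (fun T => T ∩ F = B),
        {W | TT Kc s A n W ∩ within S = (T : Set (Sym2 V))} := by
    ext W
    simp only [mem_ofPred_eq, mem_iUnion, Finset.mem_filter, exists_prop]
    have hTF : ∀ T : Finset (Sym2 V), TT Kc s A n W ∩ within S = (T : Set (Sym2 V)) →
        TT Kc s A n W ∩ F = ((T ∩ F : Finset (Sym2 V)) : Set (Sym2 V)) := by
      intro T hT
      rw [Finset.coe_inter, ← hT]
      ext e
      constructor
      · rintro ⟨h1, h2⟩
        exact ⟨⟨h1, hF h2⟩, h2⟩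
      · rintro ⟨⟨h1, _⟩, h2⟩
        exact ⟨h1, h2⟩
    constructor
    · intro h
      have hres := (coe_res (TT Kc s A n W) hS).symm
      refine ⟨res (TT Kc s A n W) S, ⟨res_mem_trees (Tseq_span good env _ n) hS hcl, ?_⟩, hres⟩
      apply Finset.coe_injective
      rw [← hTF _ hres, h]
    · rintro ⟨T, ⟨-, hT2⟩, hT3⟩
      rw [hTF T hT3, hT2]
  rw [hdec, measure_biUnion_finset]
  · rw [Finset.sum_congr rfl (fun T hT => law_TT good env n S hS hcl T
      (Finset.mem_filter.1 hT).1), Finset.sum_const, nsmul_eq_mul,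
      ENNReal.ofReal_div_of_pos hpos, ENNReal.ofReal_natCast, ENNReal.ofReal_natCast]
    rfl
  · intro T1 _ T2 _ h12
    refine Set.disjoint_left.2 fun W h1 h2 => h12 ?_
    exact Finset.coe_injective (h1.symm.trans h2)
  · intro T _
    exact meas_TT_eq good n S T

/-- For a fixed good environment the cylinder probabilities converge to the limit `L`. -/
theorem inner_tendsto [Countable V] {Kc : KcT} {s : V → I} {A : ℕ → Set (Sym2 V)}
    (good : GoodKc Kc) (env : Env s A) (H : SimpleGraph V)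
    (hAH : ∀ n, A n ⊆ H.edgeSet) (hev : ∀ e ∈ H.edgeSet, ∀ᶠ n in atTop, e ∈ A n)
    (F B : Finset (Sym2 V)) (L : ℝ)
    (hL : ∀ δ > 0, ∃ H₀ : Finset (Sym2 V), (H₀ : Set (Sym2 V)) ⊆ H.edgeSet ∧
      ∀ H' : Finset (Sym2 V), H₀ ⊆ H' → (H' : Set (Sym2 V)) ⊆ H.edgeSet →
        |ustProb ⊥ (H' : Set (Sym2 V)) (F : Set (Sym2 V)) B - L| ≤ δ) :
    Tendsto (fun n => U (ℕ × V) {W | TT Kc s A n W ∩ F = (B : Set (Sym2 V))}) atTop
      (𝓝 (ENNReal.ofReal L)) := by
  classical
  have hreal : Tendsto (fun n => (U (ℕ × V) {W | TT Kc s A n W ∩ F = (B : Set (Sym2 V))}).toReal)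
      atTop (𝓝 L) := by
    rw [Metric.tendsto_atTop]
    intro δ hδ
    obtain ⟨H₀, hH₀, hH⟩ := hL (δ / 2) (by positivity)
    -- all edges of H₀ are eventually present
    have hev' : ∀ᶠ n in atTop, ∀ e ∈ H₀, e ∈ A n := by
      rw [Filter.eventually_all_finset]
      exact fun e he => hev e (hH₀ he)
    obtain ⟨n0, hn0⟩ := eventually_atTop.1 hev'
    refine ⟨n0, fun n hn => ?_⟩
    -- endpoints
    set vs : Set V := {v | ∃ e ∈ H₀ ∪ F, v ∈ e} with hvs
    have hvsfin : vs.Finite := by
      have : vs = ⋃ e ∈ ((H₀ ∪ F : Finset (Sym2 V)) : Set (Sym2 V)), {v | v ∈ e} := by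
        ext v; simp [hvs]
      rw [this]
      refine Set.Finite.biUnion (Finset.finite_toSet _) fun e _ => ?_
      induction e with
      | _ a b =>
        have : {v | v ∈ s(a, b)} = {a, b} := by ext v; simp
        rw [this]
        exact Set.toFinite _
    set S : Set V := ⋃ v ∈ vs, comp (A n) v with hSdef
    have hS : S.Finite := hvsfin.biUnion fun v _ => env.fin n v
    have hcl : Closed (A n) S := by
      intro a b hab ha
      rw [hSdef, mem_iUnion₂] at ha ⊢
      obtain ⟨v, hv, hav⟩ := ha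
      exact ⟨v, hv, closed_comp _ _ a b hab hav⟩
    have hsubS : ∀ e ∈ H₀ ∪ F, e ∈ within S := by
      intro e he v hv
      rw [hSdef, mem_iUnion₂]
      exact ⟨v, ⟨e, he, hv⟩, mem_comp_self _ _⟩
    have hF : (F : Set (Sym2 V)) ⊆ within S := fun e he =>
      hsubS e (Finset.mem_union_right _ he)
    rw [prob_TT good env n S hS hcl F B hF, ENNReal.toReal_ofReal (ustProb_nonneg _ _ _ _)]
    have hle := hH (res (A n) S) ?_ ?_
    · rw [Real.dist_eq]
      exact hle.trans_lt (by linarith)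
    · intro e he
      rw [mem_res _ hS]
      exact ⟨hn0 n hn e he, hsubS e (Finset.mem_union_left _ he)⟩
    · rw [coe_res _ hS]
      exact inter_subset_left.trans (hAH n)
  have := ENNReal.tendsto_ofReal hreal
  refine this.congr fun n => ?_
  exact ENNReal.ofReal_toReal (measure_ne_top _ _)

/-- The limiting configuration. -/
def Phi0 (Kc : KcT) (q : Prm) (H : SimpleGraph V) (X : V × Knd → I) : Set (Sym2 V) :=
  {e | ∀ᶠ n in atTop, e ∈ TG Kc q H X n}

theorem meas_Phi0 [Countable V] {Kc : KcT} (good : GoodKc Kc) (q : Prm) (e : Sym2 V) :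
    MeasurableSet {p : SimpleGraph V × (V × Knd → I) | e ∈ Phi0 Kc q p.1 p.2} := by
  have : {p : SimpleGraph V × (V × Knd → I) | e ∈ Phi0 Kc q p.1 p.2} =
      ⋃ N : ℕ, ⋂ n : ℕ, ⋂ (_ : N ≤ n), {p | e ∈ TG Kc q p.1 p.2 n} := by
    ext p
    simp [Phi0, eventually_atTop]
  rw [this]
  exact MeasurableSet.iUnion fun N => MeasurableSet.iInter fun n => MeasurableSet.iInter fun _ =>
    meas_TG good q n e

theorem Phi0_map (γ : Equiv.Perm V) (Kc : KcT) (q : Prm) (H : SimpleGraph V)
    (X : V × Knd → I) : Phi0 Kc q (H.map γ) (permX γ X) = Sym2.map γ '' Phi0 Kc q H X := by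
  ext e
  induction e with
  | _ a b =>
    obtain ⟨a, rfl⟩ := γ.surjective a
    obtain ⟨b, rfl⟩ := γ.surjective b
    rw [mem_map_iff]
    simp only [Phi0, mem_ofPred_eq, TG_map, mem_map_iff]

theorem Phi0_sub (Kc : KcT) (q : Prm) (H : SimpleGraph V) (X : V × Knd → I) :
    Phi0 Kc q H X ⊆ H.edgeSet := by
  intro e he
  obtain ⟨n, hn1, hn2⟩ := (he.and (eventually_ge_atTop 1)).exists
  obtain ⟨n, rfl⟩ := Nat.exists_eq_add_of_le' hn2
  exact AG_sub q H X (n + 1) (step_subset hn1)

theorem meas_cyl [Countable V] {Y : Type*} [MeasurableSpace Y] (Z : Y → Set (Sym2 V))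
    (hZ : ∀ e, MeasurableSet {y | e ∈ Z y}) (F : Finset (Sym2 V)) (B : Set (Sym2 V)) :
    MeasurableSet {y | Z y ∩ F = B} := by
  have : {y | Z y ∩ F = B} = ⋂ e : Sym2 V, {y | e ∈ Z y ∩ (F : Set (Sym2 V)) ↔ e ∈ B} := by
    ext y
    simp [Set.ext_iff]
  rw [this]
  refine MeasurableSet.iInter fun e => ?_
  by_cases h1 : e ∈ (F : Set (Sym2 V)) <;> by_cases h2 : e ∈ B
  · have : {y | e ∈ Z y ∩ (F : Set (Sym2 V)) ↔ e ∈ B} = {y | e ∈ Z y} := by
      ext y
      simp only [mem_ofPred_eq, mem_inter_iff, h1, h2, and_true, iff_true]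
    rw [this]; exact hZ e
  · have : {y | e ∈ Z y ∩ (F : Set (Sym2 V)) ↔ e ∈ B} = {y | e ∈ Z y}ᶜ := by
      ext y
      simp only [mem_ofPred_eq, mem_inter_iff, h1, h2, and_true, iff_false, mem_compl_iff]
    rw [this]; exact (hZ e).compl
  · have : {y | e ∈ Z y ∩ (F : Set (Sym2 V)) ↔ e ∈ B} = ∅ := by
      ext y
      simp only [mem_ofPred_eq, mem_inter_iff, h1, h2, and_false, iff_true,
        mem_empty_iff_false]
    rw [this]; exact MeasurableSet.empty
  · have : {y | e ∈ Z y ∩ (F : Set (Sym2 V)) ↔ e ∈ B} = univ := by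
      ext y
      simp only [mem_ofPred_eq, mem_inter_iff, h1, h2, and_false, iff_false,
        not_false_eq_true, mem_univ]
    rw [this]; exact MeasurableSet.univ

theorem meas_TG_sec [Countable V] {Kc : KcT} (good : GoodKc Kc) (q : Prm) (H : SimpleGraph V)
    (n : ℕ) (e : Sym2 V) : MeasurableSet {X : V × Knd → I | e ∈ TG Kc q H X n} :=
  (measurable_const.prodMk measurable_id : Measurable fun X : V × Knd → I => (H, X))
    (meas_TG good q n e)

theorem meas_Phi0_sec [Countable V] {Kc : KcT} (good : GoodKc Kc) (q : Prm) (H : SimpleGraph V)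
    (e : Sym2 V) : MeasurableSet {X : V × Knd → I | e ∈ Phi0 Kc q H X} :=
  (measurable_const.prodMk measurable_id : Measurable fun X : V × Knd → I => (H, X))
    (meas_Phi0 good q e)

/-- The law of the limiting configuration for a fixed graph. -/
theorem law_Phi0 [Countable V] {Kc : KcT} (good : GoodKc Kc) (q : Prm) (H : SimpleGraph V)
    (hf : ∀ v, (H.neighborSet v).Finite)
    (hae : ∀ᵐ X ∂(U (V × Knd)), Function.Injective (ordL X) ∧
      (∀ e ∈ H.edgeSet, ∀ᶠ n in atTop, e ∈ AG q H X n) ∧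
      ∀ v, ∀ᶠ n in atTop, ¬ tchQ Kc q (n + 1) H X v)
    (F B : Finset (Sym2 V)) (L : ℝ)
    (hL : ∀ δ > 0, ∃ H₀ : Finset (Sym2 V), (H₀ : Set (Sym2 V)) ⊆ H.edgeSet ∧
      ∀ H' : Finset (Sym2 V), H₀ ⊆ H' → (H' : Set (Sym2 V)) ⊆ H.edgeSet →
        |ustProb ⊥ (H' : Set (Sym2 V)) (F : Set (Sym2 V)) B - L| ≤ δ) :
    U (V × Knd) {X | Phi0 Kc q H X ∩ F = (B : Set (Sym2 V))} = ENNReal.ofReal L := by
  classical
  -- step 1: convergence of the probabilities at time n to the probability in the limit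
  have h1 : Tendsto (fun n => U (V × Knd) {X | TG Kc q H X n ∩ F = (B : Set (Sym2 V))}) atTop
      (𝓝 (U (V × Knd) {X | Phi0 Kc q H X ∩ F = (B : Set (Sym2 V))})) := by
    refine tendsto_measure_of_ae_tendsto_indicator atTop
      (meas_cyl _ (meas_Phi0_sec good q H) F B)
      (fun n => meas_cyl _ (meas_TG_sec good q H n) F B) MeasurableSet.univ (by simp)
      (Eventually.of_forall fun _ => subset_univ _) ?_
    filter_upwards [hae] with X hX
    -- each edge is eventually constant
    have hconst : ∀ e : Sym2 V, ∀ᶠ n in atTop, (e ∈ TG Kc q H X n ↔ e ∈ Phi0 Kc q H X) := by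
      intro e
      induction e with
      | _ a b =>
        obtain ⟨n0, hn0⟩ := eventually_atTop.1 (hX.2.2 a)
        have hstep : ∀ n ≥ n0 + 1, (s(a, b) ∈ TG Kc q H X n ↔
            s(a, b) ∈ TG Kc q H X (n0 + 1)) := by
          intro n hn
          induction n, hn using Nat.le_induction with
          | base => rfl
          | succ n hn ih =>
            rw [← ih]
            have h2 := hn0 (n - 1) (by omega)
            have h3 : n - 1 + 1 = n := by omega
            rw [h3] at h2
            by_contra h4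
            exact h2 ⟨b, h4⟩
        filter_upwards [eventually_ge_atTop (n0 + 1)] with n hn
        rw [hstep n hn]
        constructor
        · intro h
          filter_upwards [eventually_ge_atTop (n0 + 1)] with m hm
          exact (hstep m hm).2 h
        · intro h
          obtain ⟨m, hm1, hm2⟩ := (Eventually.and h (eventually_ge_atTop (n0 + 1))).exists
          exact (hstep m hm2).1 hm1
    have hall : ∀ᶠ n in atTop, ∀ e ∈ F, (e ∈ TG Kc q H X n ↔ e ∈ Phi0 Kc q H X) := by
      rw [Filter.eventually_all_finset]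
      exact fun e _ => hconst e
    filter_upwards [hall] with n hn
    have : TG Kc q H X n ∩ (F : Set (Sym2 V)) = Phi0 Kc q H X ∩ F := by
      ext e
      constructor
      · rintro ⟨h1, h2⟩
        exact ⟨(hn e h2).1 h1, h2⟩
      · rintro ⟨h1, h2⟩
        exact ⟨(hn e h2).2 h1, h2⟩
    simp only [mem_ofPred_eq, this]
  -- step 2: conditioning on the environment
  set J : Set (V × Knd) := {p | p.2.1 ≠ 3} with hJ
  have hmixT : ∀ (X Y : V × Knd → I) (n : ℕ), TG Kc q H (mix J X Y) n =
      TT Kc (ordL X) (AG q H X) n (fun p : ℕ × V => Y (p.2, 3, p.1, 0)) := by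
    intro X Y n
    have e1 : ordL (mix J X Y) = ordL X := by
      funext v
      exact mix_apply_mem _ _ (by simp [hJ])
    have e2 : rootL (mix J X Y) = rootL X := by
      funext m v
      exact mix_apply_mem _ _ (by simp [hJ])
    have e3 : thrL (mix J X Y) = thrL X := by
      funext m k v
      refine mix_apply_mem _ _ ?_
      show (2 : Fin 4) ≠ 3
      decide
    have e4 : wL (mix J X Y) = wL Y := by
      funext n v
      exact mix_apply_not_mem _ _ (by simp [hJ])
    unfold TG TT AG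
    rw [e1, e2, e3, e4]
    rfl
  have hinj : Function.Injective (fun p : ℕ × V => ((p.2, 3, p.1, 0) : V × Knd)) := by
    rintro ⟨n, v⟩ ⟨n', v'⟩ h
    simp only [Prod.mk.injEq] at h
    rw [h.1, h.2.2.1]
  have h2 : ∀ n, U (V × Knd) {X | TG Kc q H X n ∩ F = (B : Set (Sym2 V))} =
      ∫⁻ X, U (ℕ × V) {W | TT Kc (ordL X) (AG q H X) n W ∩ F = (B : Set (Sym2 V))}
        ∂(U (V × Knd)) := by
    intro n
    rw [measure_mix J _ (meas_cyl _ (meas_TG_sec good q H n) F B)]
    refine lintegral_congr fun X => ?_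
    have hm := map_comp_injective (fun p : ℕ × V => ((p.2, 3, p.1, 0) : V × Knd)) hinj
    rw [← hm, Measure.map_apply (by fun_prop)]
    · congr 1
      ext Y
      simp only [mem_ofPred_eq, mem_preimage, hmixT]
    · exact meas_cyl _ (fun e => meas_TT good n e) F B
  have hmeas2 : ∀ n, Measurable fun X : V × Knd → I =>
      U (ℕ × V) {W | TT Kc (ordL X) (AG q H X) n W ∩ F = (B : Set (Sym2 V))} := by
    intro n
    refine measurable_measure_prodMk_left (ν := U (ℕ × V))
      (s := {p : (V × Knd → I) × (ℕ × V → I) |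
        TT Kc (ordL p.1) (AG q H p.1) n p.2 ∩ F = (B : Set (Sym2 V))}) ?_
    refine meas_cyl _ (fun e => ?_) F B
    refine J9.meas_Tseq Kc good.meas (fun p : (V × Knd → I) × (ℕ × V → I) => ordL p.1)
      (fun v => by unfold ordL; fun_prop) (fun p => AG q H p.1) (fun m e => ?_)
      (fun p n v => p.2 (n, v)) (fun n v => by fun_prop) n e
    have hH : Measurable fun p : (V × Knd → I) × (ℕ × V → I) => (H, p.1) :=
      measurable_const.prodMk measurable_fst
    exact hH (meas_AG q m e)
  -- step 3: dominated convergence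
  have h3 : Tendsto (fun n => ∫⁻ X, U (ℕ × V)
      {W | TT Kc (ordL X) (AG q H X) n W ∩ F = (B : Set (Sym2 V))} ∂(U (V × Knd))) atTop
      (𝓝 (∫⁻ _X, ENNReal.ofReal L ∂(U (V × Knd)))) := by
    refine tendsto_lintegral_of_dominated_convergence (fun _ => 1) hmeas2
      (fun n => Eventually.of_forall fun X => prob_le_one) (by simp) ?_
    filter_upwards [hae] with X hX
    exact inner_tendsto good (env_AG q H hf X hX.1) H (AG_sub q H X) hX.2.1 F B L hL
  rw [lintegral_const, measure_univ, mul_one] at h3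
  simp_rw [← h2] at h3
  exact tendsto_nhds_unique h1 h3

end Pool.Agent.TH968.UST
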