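import Pool.Agent.TH968.UST.Defs2

/-!
# Ranks and images
-/

namespace Pool.Agent.TH968.UST

open MeasureTheory Set
open scoped ENNReal unitInterval

variable {V : Type*}

theorem toFin_coe {α : Type*} {S : Set α} (h : S.Finite) : (toFin S : Set α) = S := by
  simp [toFin, h]

theorem mem_toFin {α : Type*} {S : Set α} (h : S.Finite) (x : α) : x ∈ toFin S ↔ x ∈ S := by
  simp [toFin, h]

theorem mem_within {S : Set V} {a b : V} : s(a, b) ∈ within S ↔ a ∈ S ∧ b ∈ S := by
  simp [within]

theorem within_mono {S T : Set V} (h : S ⊆ T) : within S ⊆ within T := fun _ he v hv => h (he v hv)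

theorem within_finite {S : Set V} (h : S.Finite) : (within S).Finite := by
  have : within S ⊆ (fun p : V × V => s(p.1, p.2)) '' (S ×ˢ S) := by
    intro e he
    induction e with
    | _ a b =>
      rw [mem_within] at he
      exact ⟨(a, b), ⟨he.1, he.2⟩, rfl⟩
  exact ((h.prod h).image _).subset this

theorem within_empty : within (∅ : Set V) = ∅ := by
  ext e
  induction e with
  | _ a b => simp [mem_within]

theorem conn_refl (r : Setoid V) (T : Set (Sym2 V)) (a : V) : Conn r T a a :=
  Relation.EqvGen.refl a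

theorem conn_symm {r : Setoid V} {T : Set (Sym2 V)} {a b : V} (h : Conn r T a b) :
    Conn r T b a := Relation.EqvGen.symm _ _ h

theorem conn_trans {r : Setoid V} {T : Set (Sym2 V)} {a b c : V} (h : Conn r T a b)
    (h' : Conn r T b c) : Conn r T a c := Relation.EqvGen.trans _ _ _ h h'

theorem conn_of_mem {r : Setoid V} {T : Set (Sym2 V)} {a b : V} (h : s(a, b) ∈ T) :
    Conn r T a b := Relation.EqvGen.rel _ _ (Or.inr h)

theorem conn_mono {r : Setoid V} {T T' : Set (Sym2 V)} (h : T ⊆ T') {a b : V}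
    (hab : Conn r T a b) : Conn r T' a b := by
  induction hab with
  | rel a b h' => exact Relation.EqvGen.rel _ _ (h'.imp id fun h'' => h h'')
  | refl a => exact conn_refl _ _ _
  | symm a b _ ih => exact conn_symm ih
  | trans a b c _ _ ih1 ih2 => exact conn_trans ih1 ih2

/-- `S` is closed under `A`-adjacency. -/
def Closed (A : Set (Sym2 V)) (S : Set V) : Prop := ∀ a b, s(a, b) ∈ A → a ∈ S → b ∈ S

theorem Closed.anti {A A' : Set (Sym2 V)} {S : Set V} (h : A ⊆ A') (hS : Closed A' S) :
    Closed A S := fun a b hab => hS a b (h hab)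

theorem Closed.conn_iff {A : Set (Sym2 V)} {S : Set V} (hS : Closed A S) {a b : V}
    (h : Conn ⊥ A a b) : a ∈ S ↔ b ∈ S := by
  induction h with
  | rel a b h =>
    rcases h with h | h
    · have : a = b := h
      rw [this]
    · exact ⟨hS a b h, hS b a (by rwa [Sym2.eq_swap])⟩
  | refl a => rfl
  | symm a b _ ih => exact ih.symm
  | trans a b c _ _ ih1 ih2 => exact ih1.trans ih2

theorem closed_comp (A : Set (Sym2 V)) (a : V) : Closed A (comp A a) :=
  fun _ _ h hx => conn_trans hx (conn_of_mem h)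

theorem mem_comp_self (A : Set (Sym2 V)) (a : V) : a ∈ comp A a := conn_refl _ _ _

theorem comp_subset {A : Set (Sym2 V)} {S : Set V} (hS : Closed A S) {a : V} (ha : a ∈ S) :
    comp A a ⊆ S := fun _ hx => (hS.conn_iff hx).1 ha

theorem comp_eq {A : Set (Sym2 V)} {a b : V} (h : b ∈ comp A a) : comp A b = comp A a := by
  ext x
  exact ⟨fun hx => conn_trans h hx, fun hx => conn_trans (conn_symm h) hx⟩

theorem closed_diff {A : Set (Sym2 V)} {S C : Set V} (hS : Closed A S) (hC : Closed A C) :
    Closed A (S \ C) := fun a b h ha =>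
  ⟨hS a b h ha.1, fun hb => ha.2 (hC b a (by rwa [Sym2.eq_swap]) hb)⟩

section rank

variable {s : V → I} {C : Set V}

theorem rk_lt (hC : C.Finite) {x y : V} (hx : x ∈ C) (h : s x < s y) : rk s C x < rk s C y := by
  unfold rk
  apply Set.ncard_lt_ncard
  · refine ⟨fun z hz => ⟨hz.1, hz.2.trans h⟩, fun hh => ?_⟩
    exact lt_irrefl _ (hh ⟨hx, h⟩).2
  · exact hC.subset fun z hz => hz.1

theorem rk_injOn (hC : C.Finite) (hs : Set.InjOn s C) : Set.InjOn (rk s C) C := by
  intro x hx y hy h
  by_contra hne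
  rcases lt_trichotomy (s x) (s y) with h1 | h1 | h1
  · exact (rk_lt hC hx h1).ne h
  · exact hne (hs hx hy h1)
  · exact (rk_lt hC hy h1).ne' h

theorem exists_rk_zero (hC : C.Finite) (hne : C.Nonempty) : ∃ x ∈ C, rk s C x = 0 := by
  obtain ⟨x, hx, hmin⟩ := Set.exists_min_image C s hC hne
  refine ⟨x, hx, ?_⟩
  unfold rk
  have : {y | y ∈ C ∧ s y < s x} = ∅ := by
    ext y
    simp only [mem_ofPred_eq, mem_empty_iff_false, iff_false, not_and, not_lt]
    exact fun hy => hmin y hy
  rw [this, Set.ncard_empty]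

end rank

/-- The finset of edges of `A` inside `S` (for finite `S`). -/
noncomputable def res (A : Set (Sym2 V)) (S : Set V) : Finset (Sym2 V) := toFin (A ∩ within S)

theorem coe_res (A : Set (Sym2 V)) {S : Set V} (h : S.Finite) :
    (res A S : Set (Sym2 V)) = A ∩ within S :=
  toFin_coe ((within_finite h).subset inter_subset_right)

theorem mem_res (A : Set (Sym2 V)) {S : Set V} (h : S.Finite) {e : Sym2 V} :
    e ∈ res A S ↔ e ∈ A ∧ e ∈ within S := by
  rw [← Finset.mem_coe, coe_res A h]; rfl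

theorem img_eq [DecidableEq V] (s : V → I) {C : Set V} (hC : C.Finite) (X : Set (Sym2 V)) :
    img s C X = (res X C).image (Sym2.map (rk s C)) := by
  have hset : {e | ∃ x y, x ∈ C ∧ y ∈ C ∧ s(x, y) ∈ X ∧ e = s(rk s C x, rk s C y)} =
      Sym2.map (rk s C) '' (X ∩ within C) := by
    ext e
    constructor
    · rintro ⟨x, y, hx, hy, hxy, rfl⟩
      exact ⟨s(x, y), ⟨hxy, mem_within.2 ⟨hx, hy⟩⟩, rfl⟩
    · rintro ⟨e', ⟨h1, h2⟩, rfl⟩
      induction e' with
      | _ x y =>
        rw [mem_within] at h2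
        exact ⟨x, y, h2.1, h2.2, h1, rfl⟩
  have hfin : {e | ∃ x y, x ∈ C ∧ y ∈ C ∧ s(x, y) ∈ X ∧ e = s(rk s C x, rk s C y)}.Finite := by
    rw [hset]
    exact ((within_finite hC).subset inter_subset_right).image _
  unfold img
  apply Finset.coe_injective
  rw [toFin_coe hfin, hset, Finset.coe_image, coe_res X hC]

end Pool.Agent.TH968.UST
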