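import Pool.Agent.TH968.UST.Field
import Pool.Agent.TH968.UST.J7
import Pool.Agent.TH968.UST.J8
import Pool.Agent.TH968.UST.J9

/-!
# Probability that an edge is not kept
-/

namespace Pool.Agent.TH968.UST

open MeasureTheory Set Filter Topology
open scoped ENNReal unitInterval

variable {V : Type*}

/-- The event that the edge `s(u,v)` is not kept at level `m`. -/
def unk (G : SimpleGraph V) (m : ℕ) (ε : ℝ) (N K : ℕ) (u v : V) : Set (V × Knd → I) :=
  {X | ¬ Kept G (rts m ε X) N K (thrL X m) u v}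

theorem meas_unk [Countable V] (G : SimpleGraph V) (m : ℕ) (ε : ℝ) (N K : ℕ) (u v : V) :
    MeasurableSet (unk G m ε N K u v) :=
  (J9.meas_Kept (fun _ : V × Knd → I => G) (fun _ _ => MeasurableSet.const _) (rts m ε)
    (meas_rts m ε) N K (fun X => thrL X m) (fun k v => by unfold thrL; fun_prop) u v).compl

theorem meas_massX [Countable V] (G : SimpleGraph V) (m : ℕ) (ε : ℝ) (N : ℕ) (v : V) :
    Measurable fun X : V × Knd → I => mass G (rts m ε X) N v :=
  J9.meas_mass (fun _ : V × Knd → I => G) (fun _ _ => MeasurableSet.const _) (rts m ε)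
    (meas_rts m ε) N v

theorem exp_conv (K : ℕ) (t : ℝ) (h0 : 0 ≤ t) (h1 : t ≤ 1) :
    Real.exp (-((K : ℝ) * t)) ≤ Real.exp (-(K : ℝ)) + (1 - t) := by
  have := convexOn_exp.2 (mem_univ (0 : ℝ)) (mem_univ (-(K : ℝ))) (by linarith : 0 ≤ 1 - t) h0
    (by ring)
  simp only [smul_eq_mul, mul_zero, zero_add, Real.exp_zero, mul_one] at this
  have h2 : t * Real.exp (-(K : ℝ)) ≤ 1 * Real.exp (-(K : ℝ)) :=
    mul_le_mul_of_nonneg_right h1 (Real.exp_pos _).le
  have h3 : t * -(K : ℝ) = -((K : ℝ) * t) := by ring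
  rw [h3] at this
  linarith

theorem exp_conv' (K : ℕ) (t : ℝ≥0∞) (h1 : t ≤ 1) :
    ENNReal.ofReal (Real.exp (-((K : ℝ) * t.toReal))) ≤
      ENNReal.ofReal (Real.exp (-(K : ℝ))) + (1 - t) := by
  have ht : t ≠ ∞ := ne_top_of_le_ne_top ENNReal.one_ne_top h1
  have h2 : t.toReal ≤ 1 := by
    have := ENNReal.toReal_mono ENNReal.one_ne_top h1
    simpa using this
  have h3 : (1 : ℝ≥0∞) - t = ENNReal.ofReal (1 - t.toReal) := by
    rw [ENNReal.ofReal_sub _ ENNReal.toReal_nonneg, ENNReal.ofReal_one, ENNReal.ofReal_toReal ht]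
  rw [h3, ← ENNReal.ofReal_add (Real.exp_pos _).le (by linarith)]
  exact ENNReal.ofReal_le_ofReal (exp_conv K _ ENNReal.toReal_nonneg h2)

theorem one_sub_mul_le (a b : ℝ≥0∞) (ha : a ≤ 1) (hb : b ≤ 1) :
    1 - a * b ≤ (1 - a) + (1 - b) := by
  rw [tsub_le_iff_right]
  have h1 : (1 : ℝ≥0∞) = (1 - a) + a := (tsub_add_cancel_of_le ha).symm
  have h2 : a = a * (1 - b) + a * b := by
    rw [← mul_add, tsub_add_cancel_of_le hb, mul_one]
  calc (1 : ℝ≥0∞) = (1 - a) + a := h1
    _ = (1 - a) + (a * (1 - b) + a * b) := by rw [← h2]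
    _ ≤ (1 - a) + (1 * (1 - b) + a * b) := by gcongr
    _ = (1 - a) + (1 - b) + a * b := by rw [one_mul, add_assoc]

theorem edge_bound [Countable V] (G : SimpleGraph V) (hf : ∀ v, (G.neighborSet v).Finite) (m : ℕ)
    (ε : ℝ) (hε : 0 ≤ ε) (M N K : ℕ) (hMN : M ≤ N) (u v : V)
    (hh : ∀ o n v, hit G o n v ≤ 1) :
    U (V × Knd) (unk G m ε N K u v) ≤
      (((gball G M u).ncard : ℝ≥0∞) * ENNReal.ofReal ε + 2 * K * (1 - hit G v M u) +
        ENNReal.ofReal (Real.exp (-(K : ℝ)))) +
      (2 * K * ∫⁻ X, (1 - mass G (rts m ε X) (N - M) v) ∂(U (V × Knd)) +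
        ∫⁻ X, (1 - mass G (rts m ε X) N u) ∂(U (V × Knd))) := by
  classical
  set J : Set (V × Knd) := {p | p.2.1 = 1} with hJ
  have hrts : ∀ X Y : V × Knd → I, rts m ε (mix J X Y) = rts m ε X := by
    intro X Y
    ext x
    simp only [rts, rootL, mem_ofPred_eq]
    rw [mix_apply_mem]
    simp [hJ]
  have hthr : ∀ X Y : V × Knd → I, thrL (mix J X Y) m = thrL Y m := by
    intro X Y
    ext k x
    simp only [thrL]
    rw [mix_apply_not_mem]
    simp [hJ]
  set bad : Set (V × Knd → I) := {X | ∃ x ∈ gball G M u, x ∈ rts m ε X} with hbad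
  have hbadm : MeasurableSet bad := by
    have : bad = ⋃ x ∈ gball G M u, {X | x ∈ rts m ε X} := by
      ext X; simp [hbad]
    rw [this]
    exact MeasurableSet.biUnion (to_countable _) fun x _ => meas_rts m ε x
  have hballfin := J8.gball_finite G hf M u
  have hbadP : U (V × Knd) bad ≤ ((gball G M u).ncard : ℝ≥0∞) * ENNReal.ofReal ε := by
    have : bad = ⋃ x ∈ hballfin.toFinset, {X | x ∈ rts m ε X} := by
      ext X; simp [hbad]
    rw [this]
    refine (measure_biUnion_finset_le _ _).trans ?_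
    rw [Set.ncard_eq_toFinset_card _ hballfin, ← nsmul_eq_mul]
    refine Finset.sum_le_card_nsmul _ _ _ fun x _ => ?_
    have := measure_eval ((x, 1, m, 0) : V × Knd) _ (meas_lt ε)
    change U (V × Knd) {X | (X (x, 1, m, 0)) ∈ {x : I | (x : ℝ) < ε}} ≤ _
    rw [this]
    exact vol_lt_le ε hε
  -- pointwise bound
  have hpt : ∀ X : V × Knd → I, U (V × Knd) {Y | mix J X Y ∈ unk G m ε N K u v} ≤
      bad.indicator 1 X + (2 * K * (1 - hit G v M u) + ENNReal.ofReal (Real.exp (-(K : ℝ)))) +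
        (2 * K * (1 - mass G (rts m ε X) (N - M) v) + (1 - mass G (rts m ε X) N u)) := by
    intro X
    by_cases hX : X ∈ bad
    · rw [Set.indicator_of_mem hX]
      refine prob_le_one.trans ?_
      simp only [Pi.one_apply]
      rw [add_assoc]
      exact le_self_add
    · rw [Set.indicator_of_notMem hX, zero_add]
      have hclear : ∀ x ∈ gball G M u, x ∉ rts m ε X := fun x hx hx' => hX ⟨x, hx, hx'⟩
      have hset : {Y | mix J X Y ∈ unk G m ε N K u v} =
          {Y : V × Knd → I | ¬ ((∃ k < K, ∃ r, ENNReal.ofReal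
            (Y ((fun q : ℕ × V => ((q.2, 2, m, q.1) : V × Knd)) (k, r))) <
              nu G (rts m ε X) N u r) ∧
            ∀ k < K, ∀ r, (ENNReal.ofReal
              (Y ((fun q : ℕ × V => ((q.2, 2, m, q.1) : V × Knd)) (k, r))) <
              nu G (rts m ε X) N u r ↔ ENNReal.ofReal
              (Y ((fun q : ℕ × V => ((q.2, 2, m, q.1) : V × Knd)) (k, r))) <
              nu G (rts m ε X) N v r))} := by
        ext Y
        simp only [unk, mem_ofPred_eq, Kept, hrts, hthr]
        rfl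
      have hle1 : ∀ n x, mass G (rts m ε X) n x ≤ 1 := fun n x => J8.mass_le_one _ _ _ _
      rw [hset]
      refine (J7.thr_bound (fun q : ℕ × V => ((q.2, 2, m, q.1) : V × Knd)) ?_
        (fun r => nu G (rts m ε X) N u r) (fun r => nu G (rts m ε X) N v r) ?_ ?_ ?_ K).trans ?_
      · rintro ⟨k, r⟩ ⟨k', r'⟩ h
        simp only [Prod.mk.injEq] at h
        rw [h.1, h.2.2.2]
      · rw [J8.tsum_nu G hf]; exact hle1 _ _
      · rw [J8.tsum_nu G hf]; exact hle1 _ _
      · refine (J8.gball_finite G hf N u).subset fun r hr => ?_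
        exact (J8.nu_ne_zero G _ N u r hr).2
      · rw [J8.tsum_nu G hf]
        have hd := J8.diff_bound G hf (rts m ε X) u v M N hMN hclear
        have he := exp_conv' K (mass G (rts m ε X) N u) (hle1 _ _)
        have ho := one_sub_mul_le (hit G v M u) (mass G (rts m ε X) (N - M) v) (hh _ _ _)
          (hle1 _ _)
        calc (K : ℝ≥0∞) * ∑' r, ((nu G (rts m ε X) N u r - nu G (rts m ε X) N v r) +
              (nu G (rts m ε X) N v r - nu G (rts m ε X) N u r)) +
              ENNReal.ofReal (Real.exp (-((K : ℝ) * (mass G (rts m ε X) N u).toReal)))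
            ≤ (K : ℝ≥0∞) * (2 * ((1 - hit G v M u) + (1 - mass G (rts m ε X) (N - M) v))) +
              (ENNReal.ofReal (Real.exp (-(K : ℝ))) + (1 - mass G (rts m ε X) N u)) := by
              gcongr
              exact hd.trans (by gcongr)
          _ = _ := by ring
  have hm1 : Measurable fun X : V × Knd → I => (1 : ℝ≥0∞) - mass G (rts m ε X) (N - M) v :=
    measurable_const.sub (meas_massX G m ε (N - M) v)
  have hm2 : Measurable fun X : V × Knd → I => (1 : ℝ≥0∞) - mass G (rts m ε X) N u :=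
    measurable_const.sub (meas_massX G m ε N u)
  have hm0 : Measurable (bad.indicator (1 : (V × Knd → I) → ℝ≥0∞)) :=
    measurable_one.indicator hbadm
  rw [measure_mix J _ (meas_unk G m ε N K u v)]
  refine (lintegral_mono hpt).trans ?_
  have hm0' : Measurable fun X : V × Knd → I => bad.indicator (1 : (V × Knd → I) → ℝ≥0∞) X +
      (2 * K * (1 - hit G v M u) + ENNReal.ofReal (Real.exp (-(K : ℝ)))) :=
    hm0.add measurable_const
  have hm1' : Measurable fun X : V × Knd → I =>
      (2 : ℝ≥0∞) * K * (1 - mass G (rts m ε X) (N - M) v) := hm1.const_mul _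
  rw [lintegral_add_left hm0', lintegral_add_left hm0,
    lintegral_add_left hm1', lintegral_const_mul _ hm1,
    lintegral_indicator_one hbadm, lintegral_const, measure_univ, mul_one]
  refine (add_le_add (add_le_add hbadP le_rfl) le_rfl).trans (le_of_eq ?_)
  ring

end Pool.Agent.TH968.UST
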